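import Mathlib

/-!
Definitions and module statements for the injective 5-edge-colouring of subcubic bipartite graphs.
-/

namespace Pool.Agent.Helper65.Inj

open Classical

/-! ### Graph part : a finite active set U and a symmetric relation E -/

/-- degree inside U -/
noncomputable def dg {V : Type} (U : Finset V) (E : V → V → Prop) (v : V) : ℕ :=
  (U.filter (fun w => E v w)).card

/-- proper 3-colourability of E on U -/
def Col3 {V : Type} (U : Finset V) (E : V → V → Prop) : Prop :=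
  ∃ c : V → Fin 3, ∀ u ∈ U, ∀ v ∈ U, E u v → c u ≠ c v

/-- no four pairwise adjacent vertices in U -/
def NoK4 {V : Type} (U : Finset V) (E : V → V → Prop) : Prop :=
  ¬ ∃ a ∈ U, ∃ b ∈ U, ∃ c ∈ U, ∃ d ∈ U, E a b ∧ E a c ∧ E a d ∧ E b c ∧ E b d ∧ E c d

/-- Brooks' theorem for maximum degree 3 -/
def ST_Brooks : Prop :=
  ∀ (V : Type) (U : Finset V) (E : V → V → Prop),
    (∀ u v, E u v → E v u) → (∀ u, ¬ E u u) →
    (∀ v ∈ U, dg U E v ≤ 3) → NoK4 U E → Col3 U E

/-- the token version of Brooks' theorem: vertices of degree 4 are allowed when they have a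
private triangle `x, y x, z x` with `y x, z x` of degree at most 3 and without a common
neighbour besides `x`. -/
def ST_VL : Prop :=
  ∀ (V : Type) (U : Finset V) (E : V → V → Prop) (X : Finset V) (y z : V → V),
    (∀ u v, E u v → E v u) → (∀ u, ¬ E u u) →
    X ⊆ U →
    (∀ x ∈ X, y x ∈ U ∧ z x ∈ U ∧ y x ∉ X ∧ z x ∉ X ∧ E x (y x) ∧ E x (z x) ∧ E (y x) (z x)) →
    (∀ x ∈ X, ∀ x' ∈ X, x ≠ x' →
      y x ≠ y x' ∧ y x ≠ z x' ∧ z x ≠ z x') →
    (∀ x ∈ X, dg U E x ≤ 4) →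
    (∀ v ∈ U, v ∉ X → dg U E v ≤ 3) →
    (∀ x ∈ X, ∀ o ∈ U, E (y x) o → E (z x) o → o = x) →
    NoK4 U E → Col3 U E

/-! ### R part : incidence structures -/

/-- an incidence structure: active points `R`, the blocks of each point, and the set `D` of points
whose incidence with their token is dropped -/
structure RS (A B : Type) where
  R : Finset A
  bl : A → Finset B
  D : Finset A

namespace RS

variable {A B : Type} (S : RS A B)

/-- active points of a block -/
noncomputable def pt (b : B) : Finset A := S.R.filter (fun v => b ∈ S.bl v)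

/-- tokens: blocks with three active points -/
def Tok (b : B) : Prop := (S.pt b).card = 3

/-- the incidence (v,b) is dropped -/
def drp (v : A) (b : B) : Prop := v ∈ S.D ∧ S.Tok b

/-- adjacency: a common block in which not both are dropped -/
def adj (u v : A) : Prop :=
  u ≠ v ∧ ∃ b, u ∈ S.pt b ∧ v ∈ S.pt b ∧ ¬ (S.drp u b ∧ S.drp v b)

/-- degree -/
noncomputable def deg (v : A) : ℕ := (S.R.filter (fun w => S.adj v w)).card

/-- the class of structures of the R-lemma -/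
structure Cls : Prop where
  bl3 : ∀ v ∈ S.R, (S.bl v).card = 3
  pt3 : ∀ b, (S.pt b).card ≤ 3
  tokd : ∀ v b b', v ∈ S.pt b → v ∈ S.pt b' → S.Tok b → S.Tok b' → b = b'
  deg4 : ∀ v ∈ S.R, S.deg v ≤ 4
  deg3 : ∀ v ∈ S.R, 3 < S.deg v → ∃ b, v ∈ S.pt b ∧ S.Tok b ∧ (∀ u ∈ S.pt b, u ∉ S.D) ∧
    ∀ u ∈ S.pt b, u ≠ v → S.deg u ≤ 3
  drop2 : ∀ b, S.Tok b → ∀ u ∈ S.pt b, u ∈ S.D → ∃ v ∈ S.pt b, v ≠ u ∧ v ∈ S.D
  e1 : ∀ b, S.Tok b → (∀ v ∈ S.pt b, v ∉ S.D) → ∀ y ∈ S.pt b, ∀ z ∈ S.pt b, y ≠ z →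
    (∃ g, g ≠ b ∧ y ∈ S.pt g ∧ z ∈ S.pt g) →
    ∀ y' z', y' ∉ S.pt b → z' ∉ S.pt b → S.adj y y' → S.adj z z' → S.deg y' ≤ 3
  e2 : ∀ b, S.Tok b → (∀ v ∈ S.pt b, v ∉ S.D) → ∀ y ∈ S.pt b, ∀ z ∈ S.pt b, y ≠ z →
    (∃ g, g ≠ b ∧ y ∈ S.pt g ∧ z ∈ S.pt g) →
    ∀ o, o ∉ S.pt b → S.adj y o → S.adj z o →
    ∀ x ∈ S.pt b, x ≠ y → x ≠ z → S.deg x ≤ 3 ∧ ¬ S.adj x o

/-- conflict free 3-colouring of the undropped incidences, constant on the non-token incidences
of each point having a block of its own -/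
def Colb : Prop :=
  ∃ f : A → B → Fin 3,
    (∀ u v b b', u ≠ v → b ≠ b' → u ∈ S.pt b → v ∈ S.pt b → v ∈ S.pt b' →
      ¬ S.drp u b → ¬ S.drp v b' → f u b ≠ f v b') ∧
    (∀ v c, S.pt c = {v} → ∀ b b', v ∈ S.pt b → v ∈ S.pt b' → ¬ S.Tok b → ¬ S.Tok b' →
      f v b = f v b')

/-- remove a set of points -/
noncomputable def rm (O : Finset A) : RS A B where
  R := S.R \ O
  bl := S.bl
  D := S.D

/-- data of a contractible diamond: an undropped token `T = {x,y,z}` with `x` of degree 4 and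
other blocks `b1, b2`; `y` has the blocks `T, be = {y,o}, be' = {y}`; `z` has the blocks
`T, ga = {z,o}, ga' = {z}`; `o` has the blocks `be, ga, de` with `de` different from `b1, b2`. -/
structure Dia (x y z o : A) (T b1 b2 be be' ga ga' de : B) : Prop where
  hT : S.pt T = {x, y, z}
  xy : x ≠ y
  xz : x ≠ z
  yz : y ≠ z
  xo : x ≠ o
  yo : y ≠ o
  zo : z ≠ o
  oR : o ∈ S.R
  hD : x ∉ S.D ∧ y ∉ S.D ∧ z ∉ S.D
  hx : S.bl x = {T, b1, b2}
  hy : S.bl y = {T, be, be'}
  hz : S.bl z = {T, ga, ga'}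
  ho : S.bl o = {be, ga, de}
  hbe : S.pt be = {y, o}
  hbe' : S.pt be' = {y}
  hga : S.pt ga = {z, o}
  hga' : S.pt ga' = {z}
  hdx : x ∉ S.pt de
  hdeg : S.deg x = 4

/-- the contraction: `y, z, o` are deleted and `x` gets the blocks `b1, b2, de` -/
noncomputable def con (x y z o : A) (b1 b2 de : B) : RS A B where
  R := S.R \ {y, z, o}
  bl := fun v => if v = x then {b1, b2, de} else S.bl v
  D := if o ∈ S.D then insert x S.D else S.D

/-- four pairwise adjacent points -/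
def K4 (a b c d : A) : Prop :=
  a ∈ S.R ∧ b ∈ S.R ∧ c ∈ S.R ∧ d ∈ S.R ∧
  S.adj a b ∧ S.adj a c ∧ S.adj a d ∧ S.adj b c ∧ S.adj b d ∧ S.adj c d

end RS

/-- R1: closure under removal -/
def ST_R1 : Prop :=
  ∀ (A B : Type) (S : RS A B) (O : Finset A), S.Cls →
    (∀ b, S.Tok b → (∃ u ∈ S.pt b, u ∈ S.D) → (∃ u ∈ S.pt b, u ∈ O) → ∀ u ∈ S.pt b, u ∈ O) →
    (S.rm O).Cls

/-- R2: closure under contraction of a diamond -/
def ST_R2 : Prop :=
  ∀ (A B : Type) (S : RS A B) (x y z o : A) (T b1 b2 be be' ga ga' de : B), S.Cls →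
    S.Dia x y z o T b1 b2 be be' ga ga' de → (S.con x y z o b1 b2 de).Cls

/-- R3: lifting through a contraction -/
def ST_R3 : Prop :=
  ∀ (A B : Type) (S : RS A B) (x y z o : A) (T b1 b2 be be' ga ga' de : B), S.Cls →
    S.Dia x y z o T b1 b2 be be' ga ga' de → (S.con x y z o b1 b2 de).Colb → S.Colb

/-- R4: a K4 can be removed -/
def ST_R4 : Prop :=
  ∀ (A B : Type) (S : RS A B) (a b c d : A), S.Cls → S.K4 a b c d →
    (S.rm {a, b, c, d}).Cls ∧ ((S.rm {a, b, c, d}).Colb → S.Colb)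

/-- the R-lemma -/
def ST_R : Prop := ∀ (A B : Type) (S : RS A B), S.Cls → S.Colb

/-! ### cubic structures -/

/-- a cubic incidence structure (bipartite cubic graph) -/
structure Cub (A B : Type) where
  bl : A → Finset B
  pt : B → Finset A
  mem : ∀ a b, b ∈ bl a ↔ a ∈ pt b
  bl3 : ∀ a, (bl a).card = 3
  pt3 : ∀ b, (pt b).card = 3

namespace Cub

variable {A B : Type} [Fintype A] (H : Cub A B)

/-- the structure left by J, with dropped points D -/
noncomputable def rs (J D : Finset A) : RS A B where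
  R := Finset.univ \ J
  bl := H.bl
  D := D

end Cub

/-- the J part: a set J and a set D of dropped points such that the rest is in the class, and the
incidences of J together with the dropped ones have a conflict free 2-colouring -/
def ST_J : Prop :=
  ∀ (A B : Type) [Fintype A] [Fintype B] (H : Cub A B), ∃ J D : Finset A,
    (H.rs J D).Cls ∧
    ∃ g : A → B → Bool,
      ∀ u v b b', u ≠ v → b ≠ b' → u ∈ H.pt b → v ∈ H.pt b → v ∈ H.pt b' →
        (u ∈ J ∨ (u ∉ J ∧ (H.rs J D).drp u b)) → (v ∈ J ∨ (v ∉ J ∧ (H.rs J D).drp v b')) →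
        g u b ≠ g v b'

/-- the colouring theorem for cubic structures -/
def ST_Main : Prop :=
  ∀ (A B : Type) [Fintype A] [Fintype B] (H : Cub A B), ∃ f : A → B → Fin 5,
    ∀ u v b b', u ≠ v → b ≠ b' → u ∈ H.pt b → v ∈ H.pt b → v ∈ H.pt b' → f u b ≠ f v b'

/-- injective edge colouring with 5 colours of a graph -/
def InjCol {V : Type*} (G : SimpleGraph V) : Prop :=
  ∃ c : Sym2 V → Fin 5, ∀ p q r s : V, G.Adj p q → G.Adj q r → G.Adj r s → p ≠ r → q ≠ s →
    c s(p, q) ≠ c s(r, s)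

/-- final assembly: ST_Main gives the theorem for subcubic bipartite graphs -/
def ST_Fin : Prop :=
  ST_Main → ∀ (V : Type) [Fintype V] (G : SimpleGraph V) [DecidableRel G.Adj],
    (∀ v, G.degree v ≤ 3) → G.Colorable 2 → InjCol G

end Pool.Agent.Helper65.Inj
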