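import Mathlib
import Pool.Agent.Helper65.Inj.Defs

namespace Pool.Agent.Helper65.Inj

open Classical

set_option linter.unusedSectionVars false
set_option linter.unusedVariables false

namespace Cub

variable {A B : Type} (H : Cub A B)

/-- unhit block -/
def U (J : Finset A) (b : B) : Prop := ∀ u ∈ H.pt b, u ∉ J

/-- `b` meets `J` exactly in `v` -/
def P (J : Finset A) (b : B) (v : A) : Prop :=
  v ∈ H.pt b ∧ v ∈ J ∧ ∀ u ∈ H.pt b, u ∈ J → u = v

/-- `b` meets `J` exactly in the two points `u, v` -/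
def Q (J : Finset A) (b : B) (u v : A) : Prop :=
  u ≠ v ∧ u ∈ H.pt b ∧ v ∈ H.pt b ∧ u ∈ J ∧ v ∈ J ∧ ∀ r ∈ H.pt b, r ∈ J → r = u ∨ r = v

/-- triple block -/
def Tr (J : Finset A) (b : B) : Prop := ∀ u ∈ H.pt b, u ∈ J

/-- `a` is in no triple block -/
def nt (J : Finset A) (a : A) : Prop := ∀ b ∈ H.bl a, ¬ H.Tr J b

/-- valid 2-colouring of `J` -/
def Val (J : Finset A) (s : A → Bool) : Prop := ∀ b u v, H.Q J b u v → s u ≠ s v

/-- triple blocks are isolated -/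
def Iso (J : Finset A) : Prop :=
  ∀ b, H.Tr J b → ∀ a ∈ H.pt b, ∀ b' ∈ H.bl a, b' ≠ b → H.P J b' a

def Good (J : Finset A) : Prop := (∃ s, H.Val J s) ∧ H.Iso J

variable {H}

theorem mem_bl {a : A} {b : B} : b ∈ H.bl a ↔ a ∈ H.pt b := H.mem a b

theorem Q.symm {J : Finset A} {b : B} {u v : A} (h : H.Q J b u v) : H.Q J b v u := by
  obtain ⟨h1, h2, h3, h4, h5, h6⟩ := h
  exact ⟨h1.symm, h3, h2, h5, h4, fun r hr hr' => (h6 r hr hr').symm⟩

/-- the three points of a block -/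
theorem pt_cases {b : B} {u v w : A} (hu : u ∈ H.pt b) (hv : v ∈ H.pt b) (hw : w ∈ H.pt b)
    (h1 : u ≠ v) (h2 : u ≠ w) (h3 : v ≠ w) {r : A} (hr : r ∈ H.pt b) : r = u ∨ r = v ∨ r = w := by
  have hs : ({u, v, w} : Finset A) ⊆ H.pt b := by
    intro t ht; simp at ht; rcases ht with rfl | rfl | rfl <;> assumption
  have hc : ({u, v, w} : Finset A).card = 3 := by
    rw [Finset.card_eq_three]; exact ⟨u, v, w, h1, h2, h3, rfl⟩
  have := Finset.eq_of_subset_of_card_le hs (by rw [H.pt3, hc])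
  rw [← this] at hr; simpa using hr

/-- the three blocks of a point -/
theorem bl_cases {a : A} {b c d : B} (hb : a ∈ H.pt b) (hc : a ∈ H.pt c) (hd : a ∈ H.pt d)
    (h1 : b ≠ c) (h2 : b ≠ d) (h3 : c ≠ d) {r : B} (hr : a ∈ H.pt r) : r = b ∨ r = c ∨ r = d := by
  have hs : ({b, c, d} : Finset B) ⊆ H.bl a := by
    intro t ht; simp at ht; rcases ht with rfl | rfl | rfl <;> rw [H.mem] <;> assumption
  have hcd : ({b, c, d} : Finset B).card = 3 := by
    rw [Finset.card_eq_three]; exact ⟨b, c, d, h1, h2, h3, rfl⟩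
  have := Finset.eq_of_subset_of_card_le hs (by rw [H.bl3, hcd])
  have hr' : r ∈ H.bl a := by rw [H.mem]; exact hr
  rw [← this] at hr'; simpa using hr'

/-- every point has a block list -/
theorem ex_bl (a : A) : ∃ b c d, b ≠ c ∧ b ≠ d ∧ c ≠ d ∧ a ∈ H.pt b ∧ a ∈ H.pt c ∧ a ∈ H.pt d ∧
    ∀ r, a ∈ H.pt r → r = b ∨ r = c ∨ r = d := by
  obtain ⟨b, c, d, h1, h2, h3, h⟩ := Finset.card_eq_three.1 (H.bl3 a)
  have hb : a ∈ H.pt b := by rw [← H.mem, h]; simp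
  have hc : a ∈ H.pt c := by rw [← H.mem, h]; simp
  have hd : a ∈ H.pt d := by rw [← H.mem, h]; simp
  exact ⟨b, c, d, h1, h2, h3, hb, hc, hd, fun r hr => bl_cases hb hc hd h1 h2 h3 hr⟩

theorem ex_bl2 {a : A} {b c : B} (hb : a ∈ H.pt b) (hc : a ∈ H.pt c) (h1 : b ≠ c) :
    ∃ d, b ≠ d ∧ c ≠ d ∧ a ∈ H.pt d ∧ ∀ r, a ∈ H.pt r → r = b ∨ r = c ∨ r = d := by
  obtain ⟨x, y, z, h12, h13, h23, hx, hy, hz, h⟩ := ex_bl (H := H) a
  rcases h b hb with rfl | rfl | rfl <;> rcases h c hc with rfl | rfl | rfl <;> grind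

theorem ex_bl1 {a : A} {b : B} (hb : a ∈ H.pt b) :
    ∃ c d, b ≠ c ∧ b ≠ d ∧ c ≠ d ∧ a ∈ H.pt c ∧ a ∈ H.pt d ∧
    ∀ r, a ∈ H.pt r → r = b ∨ r = c ∨ r = d := by
  obtain ⟨x, y, z, h12, h13, h23, hx, hy, hz, h⟩ := ex_bl (H := H) a
  rcases h b hb with rfl | rfl | rfl
  · exact ⟨y, z, h12, h13, h23, hy, hz, h⟩
  · exact ⟨x, z, h12.symm, h23, h13, hx, hz, fun r hr => by rcases h r hr with h | h | h <;> simp [h]⟩
  · exact ⟨x, y, h13.symm, h23.symm, h12, hx, hy, fun r hr => by rcases h r hr with h | h | h <;> simp [h]⟩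

theorem ex_pt2 {b : B} {u v : A} (hu : u ∈ H.pt b) (hv : v ∈ H.pt b) (h1 : u ≠ v) :
    ∃ w, u ≠ w ∧ v ≠ w ∧ w ∈ H.pt b ∧ ∀ r ∈ H.pt b, r = u ∨ r = v ∨ r = w := by
  obtain ⟨x, y, z, h12, h13, h23, h⟩ := Finset.card_eq_three.1 (H.pt3 b)
  rw [h] at hu hv ⊢
  simp only [Finset.mem_insert, Finset.mem_singleton] at *
  rcases hu with rfl | rfl | rfl <;> rcases hv with rfl | rfl | rfl <;>
    first
    | exact absurd rfl h1
    | exact ⟨x, by grind⟩
    | exact ⟨y, by grind⟩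
    | exact ⟨z, by grind⟩

theorem ex_pt1 {b : B} {u : A} (hu : u ∈ H.pt b) :
    ∃ v w, u ≠ v ∧ u ≠ w ∧ v ≠ w ∧ v ∈ H.pt b ∧ w ∈ H.pt b ∧ ∀ r ∈ H.pt b, r = u ∨ r = v ∨ r = w := by
  obtain ⟨x, y, z, h12, h13, h23, h⟩ := Finset.card_eq_three.1 (H.pt3 b)
  rw [h] at hu ⊢
  simp only [Finset.mem_insert, Finset.mem_singleton] at *
  rcases hu with rfl | rfl | rfl
  · exact ⟨y, z, by grind⟩
  · exact ⟨x, z, by grind⟩
  · exact ⟨x, y, by grind⟩

/-- trichotomy of traces -/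
theorem tr_cases (H : Cub A B) (J : Finset A) (b : B) :
    H.U J b ∨ (∃ v, H.P J b v) ∨ (∃ u v, H.Q J b u v) ∨ H.Tr J b := by
  obtain ⟨x, y, z, h12, h13, h23, h⟩ := Finset.card_eq_three.1 (H.pt3 b)
  unfold U P Q Tr
  rw [h]
  simp only [Finset.mem_insert, Finset.mem_singleton]
  by_cases hx : x ∈ J <;> by_cases hy : y ∈ J <;> by_cases hz : z ∈ J
  · right; right; right; grind
  · right; right; left; exact ⟨x, y, by grind⟩
  · right; right; left; exact ⟨x, z, by grind⟩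
  · right; left; exact ⟨x, by grind⟩
  · right; right; left; exact ⟨y, z, by grind⟩
  · right; left; exact ⟨y, by grind⟩
  · right; left; exact ⟨z, by grind⟩
  · left; grind

/-- traces of a block containing a member of J -/
theorem tr_cases_mem {J : Finset A} {b : B} {a : A} (ha : a ∈ H.pt b) (hJ : a ∈ J) :
    H.P J b a ∨ (∃ v, H.Q J b a v) ∨ H.Tr J b := by
  rcases H.tr_cases J b with h | ⟨v, h⟩ | ⟨u, v, h⟩ | h
  · exact absurd hJ (h a ha)
  · left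
    have := h.2.2 a ha hJ
    subst this; exact h
  · right; left
    rcases h.2.2.2.2.2 a ha hJ with rfl | rfl
    · exact ⟨v, h⟩
    · exact ⟨u, h.symm⟩
  · right; right; exact h


theorem U.not_P {J : Finset A} {b : B} {v : A} (h : H.U J b) : ¬ H.P J b v :=
  fun h' => h v h'.1 h'.2.1

/-! ### goodness of a modified set -/

/-- the move lemma, general form -/
theorem move {J J' : Finset A} {s' : A → Bool} (hI : H.Iso J)
    (hb : ∀ v ∈ J', v ∉ J → ∀ b, v ∈ H.pt b → ∀ u ∈ H.pt b, u ∈ J' → u ≠ v →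
      (∀ r ∈ H.pt b, r ∈ J' → r = u ∨ r = v) ∧ s' u ≠ s' v ∧ (u ∈ J → H.nt J u))
    (hc : ∀ b u v, u ≠ v → u ∈ H.pt b → v ∈ H.pt b → u ∈ J → v ∈ J → u ∈ J' → v ∈ J' →
      (∀ r ∈ H.pt b, r ∈ J' → r = u ∨ r = v) → s' u ≠ s' v) :
    H.Val J' s' ∧ H.Iso J' ∧ ∀ b, H.Tr J' b → H.Tr J b := by
  have key : ∀ b, H.Tr J' b → H.Tr J b := by
    intro b h u hu
    by_contra huJ
    obtain ⟨v, w, h1, h2, h3, hv, hw, h4⟩ := ex_pt1 hu
    have := (hb u (h u hu) huJ b hu v hv (h v hv) h1.symm).1 w hw (h w hw)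
    rcases this with h | h
    · exact h3 h.symm
    · exact h2 h.symm
  refine ⟨?_, ?_, key⟩
  · intro b u v hQ
    by_cases hu : u ∈ J
    · by_cases hv : v ∈ J
      · exact hc b u v hQ.1 hQ.2.1 hQ.2.2.1 hu hv hQ.2.2.2.1 hQ.2.2.2.2.1 hQ.2.2.2.2.2
      · exact (hb v hQ.2.2.2.2.1 hv b hQ.2.2.1 u hQ.2.1 hQ.2.2.2.1 hQ.1).2.1
    · exact ((hb u hQ.2.2.2.1 hu b hQ.2.1 v hQ.2.2.1 hQ.2.2.2.2.1 hQ.1.symm).2.1).symm
  · intro b hT a ha' b' hb' hne
    have hT' := key b hT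
    have hP := hI b hT' a ha' b' hb' hne
    refine ⟨hP.1, hT a ha', ?_⟩
    intro r hr hrJ
    by_contra hra
    have hrn : r ∉ J := fun h => hra (hP.2.2 r hr h)
    have := (hb r hrJ hrn b' hr a hP.1 (hT a ha') (fun h => hra h.symm)).2.2 (hT' a ha')
    exact this b (mem_bl.2 ha') hT'

/-- condition hc from valid pairs when removed points are in no triple -/
theorem hc_of {J J' : Finset A} {s' : A → Bool}
    (ha : ∀ v ∈ J, v ∉ J' → H.nt J v)
    (hc : ∀ b u v, H.Q J b u v → u ∈ J' → v ∈ J' → s' u ≠ s' v) :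
    ∀ b u v, u ≠ v → u ∈ H.pt b → v ∈ H.pt b → u ∈ J → v ∈ J → u ∈ J' → v ∈ J' →
      (∀ r ∈ H.pt b, r ∈ J' → r = u ∨ r = v) → s' u ≠ s' v := by
  intro b u v hne hu hv huJ hvJ huJ' hvJ' hr
  rcases tr_cases_mem hu huJ with h | ⟨w, h⟩ | h
  · exact absurd (h.2.2 v hv hvJ) hne.symm
  · have : v = w := by
      rcases h.2.2.2.2.2 v hv hvJ with h' | h'
      · exact absurd h' hne.symm
      · exact h'
    subst this
    exact hc b u v h huJ' hvJ'
  · exfalso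
    obtain ⟨w, h1, h2, h3, h4⟩ := ex_pt2 hu hv hne
    by_cases hw : w ∈ J'
    · rcases hr w h3 hw with h5 | h5
      · exact h1 h5.symm
      · exact h2 h5.symm
    · exact ha w (h w h3) hw b (mem_bl.2 h3) h

/-! ### the potential -/

section count

variable [Fintype A] [Fintype B] (H)

noncomputable def n0 (J : Finset A) : ℕ := (Finset.univ.filter (fun b => H.U J b)).card

noncomputable def n3 (J : Finset A) : ℕ := (Finset.univ.filter (fun b => H.Tr J b)).card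

/-- optimal sets: good and lexicographically minimal -/
def Opt (J : Finset A) : Prop :=
  H.Good J ∧ ∀ J', H.Good J' →
    (J.card + H.n0 J < J'.card + H.n0 J' ∨
      (J.card + H.n0 J = J'.card + H.n0 J' ∧ (H.n3 J < H.n3 J' ∨
        (H.n3 J = H.n3 J' ∧ H.n0 J ≤ H.n0 J'))))

variable {H}

theorem Opt.lt_false {J J' : Finset A} (h : H.Opt J) (h' : H.Good J')
    (hlt : J'.card + H.n0 J' < J.card + H.n0 J) : False := by
  have := h.2 J' h'; omega

theorem Opt.n3_false {J J' : Finset A} (h : H.Opt J) (h' : H.Good J')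
    (hlt : J'.card + H.n0 J' ≤ J.card + H.n0 J) (h3 : H.n3 J' < H.n3 J) : False := by
  have := h.2 J' h'; omega

theorem Opt.n0_false {J J' : Finset A} (h : H.Opt J) (h' : H.Good J')
    (hlt : J'.card + H.n0 J' ≤ J.card + H.n0 J) (h3 : H.n3 J' ≤ H.n3 J)
    (h0 : H.n0 J' < H.n0 J) : False := by
  have := h.2 J' h'; omega

theorem Opt.opt {J J' : Finset A} (h : H.Opt J) (h' : H.Good J')
    (hlt : J'.card + H.n0 J' ≤ J.card + H.n0 J) (h3 : H.n3 J' ≤ H.n3 J)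
    (h0 : H.n0 J' ≤ H.n0 J) : H.Opt J' := by
  refine ⟨h', fun J'' h'' => ?_⟩
  have h1 := h.2 J' h'
  have h2 := h.2 J'' h''
  omega

theorem good_empty (H : Cub A B) : H.Good ∅ := by
  refine ⟨⟨fun _ => false, ?_⟩, ?_⟩
  · intro b u v h; exact absurd h.2.2.2.1 (by simp)
  · intro b h a ha; exact absurd (h a ha) (by simp)

theorem exists_opt (H : Cub A B) : ∃ J, H.Opt J := by
  obtain ⟨J, hJ, hm⟩ := Finset.exists_min_image (Finset.univ.filter (fun J => H.Good J))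
    (fun J => toLex (J.card + H.n0 J, toLex (H.n3 J, H.n0 J))) ⟨∅, by simp [good_empty]⟩
  refine ⟨J, (Finset.mem_filter.1 hJ).2, fun J' hJ' => ?_⟩
  have := hm J' (by simp [hJ'])
  simp only [Prod.Lex.toLex_le_toLex] at this
  omega

/-- counting unhit blocks -/
theorem n0_le {J J' : Finset A} {E F : Finset B}
    (hE : ∀ v ∈ J, v ∉ J' → ∀ b, v ∈ H.pt b → (∃ u ∈ H.pt b, u ∈ J') ∨ b ∈ E)
    (hF : ∀ b ∈ F, H.U J b ∧ ∃ u ∈ H.pt b, u ∈ J') :
    H.n0 J' + F.card ≤ H.n0 J + E.card := by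
  have hsub : Finset.univ.filter (fun b => H.U J' b) ⊆
      (Finset.univ.filter (fun b => H.U J b) \ F) ∪ E := by
    intro b hb
    simp only [Finset.mem_filter, Finset.mem_univ, true_and, Finset.mem_union,
      Finset.mem_sdiff] at hb ⊢
    by_cases hbJ : H.U J b
    · left
      refine ⟨hbJ, fun hbF => ?_⟩
      obtain ⟨u, hu, hu'⟩ := (hF b hbF).2
      exact hb u hu hu'
    · right
      unfold U at hbJ
      push Not at hbJ
      obtain ⟨v, hv, hvJ⟩ := hbJ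
      rcases hE v hvJ (hb v hv) b hv with ⟨u, hu, hu'⟩ | h
      · exact absurd hu' (hb u hu)
      · exact h
  have hFs : F ⊆ Finset.univ.filter (fun b => H.U J b) := by
    intro b hb; simp [(hF b hb).1]
  have h1 := Finset.card_le_card hsub
  have h2 := Finset.card_union_le (Finset.univ.filter (fun b => H.U J b) \ F) E
  have h3 := Finset.card_sdiff_add_card_eq_card hFs
  unfold n0
  omega

theorem n3_le {J J' : Finset A} (h : ∀ b, H.Tr J' b → H.Tr J b) : H.n3 J' ≤ H.n3 J := by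
  unfold n3
  apply Finset.card_le_card
  intro b
  simpa using h b

theorem n3_lt {J J' : Finset A} (h : ∀ b, H.Tr J' b → H.Tr J b) {c : B} (h1 : H.Tr J c)
    (h2 : ¬ H.Tr J' c) : H.n3 J' < H.n3 J := by
  unfold n3
  apply Finset.card_lt_card
  refine ⟨?_, fun hs => ?_⟩
  · intro b
    simpa using h b
  · have := hs (Finset.mem_filter.2 ⟨Finset.mem_univ c, h1⟩)
    exact h2 (Finset.mem_filter.1 this).2

/-- exchange: add `X`, remove `Y` -/
theorem card_ex {J X Y : Finset A} (hX : ∀ v ∈ X, v ∉ J) (hY : ∀ v ∈ Y, v ∈ J) :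
    ((J \ Y) ∪ X).card + Y.card = J.card + X.card := by
  have h1 := Finset.card_sdiff_add_card_eq_card (s := Y) (t := J) (fun v hv => hY v hv)
  have h2 : Disjoint (J \ Y) X := by
    rw [Finset.disjoint_left]
    intro a ha hx
    exact hX a hx (Finset.mem_sdiff.1 ha).1
  rw [Finset.card_union_of_disjoint h2]
  omega

/-- exchange data: all conditions of the move lemma for `(J \ Y) ∪ X` -/
structure Ex (H : Cub A B) (J X Y : Finset A) (E F : Finset B) (s' : A → Bool) : Prop where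
  hX : ∀ v ∈ X, v ∉ J
  hY : ∀ v ∈ Y, v ∈ J
  hb : ∀ v ∈ X, ∀ b, v ∈ H.pt b → ∀ u ∈ H.pt b, (u ∈ J ∧ u ∉ Y ∨ u ∈ X) → u ≠ v →
      (∀ r ∈ H.pt b, (r ∈ J ∧ r ∉ Y ∨ r ∈ X) → r = u ∨ r = v) ∧ s' u ≠ s' v ∧
      (u ∈ J → H.nt J u)
  hc : ∀ b u v, u ≠ v → u ∈ H.pt b → v ∈ H.pt b → u ∈ J → v ∈ J → u ∉ Y → v ∉ Y →
      (∀ r ∈ H.pt b, (r ∈ J ∧ r ∉ Y ∨ r ∈ X) → r = u ∨ r = v) → s' u ≠ s' v
  hE : ∀ v ∈ Y, ∀ b, v ∈ H.pt b → (∃ u ∈ H.pt b, (u ∈ J ∧ u ∉ Y ∨ u ∈ X)) ∨ b ∈ E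
  hF : ∀ b ∈ F, H.U J b ∧ ∃ u ∈ H.pt b, u ∈ X

theorem Ex.res {J X Y : Finset A} {E F : Finset B} {s' : A → Bool} (h : Ex H J X Y E F s')
    (hI : H.Iso J) :
    H.Val ((J \ Y) ∪ X) s' ∧ H.Good ((J \ Y) ∪ X) ∧
    (∀ b, H.Tr ((J \ Y) ∪ X) b → H.Tr J b) ∧
    ((J \ Y) ∪ X).card + Y.card = J.card + X.card ∧
    H.n0 ((J \ Y) ∪ X) + F.card ≤ H.n0 J + E.card := by
  have hm := move (H := H) (J := J) (J' := (J \ Y) ∪ X) (s' := s') hI
    (by
      intro v hv hvJ b hvb u hu huJ' hne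
      have hvX : v ∈ X := by
        simp only [Finset.mem_union, Finset.mem_sdiff] at hv; tauto
      simp only [Finset.mem_union, Finset.mem_sdiff] at huJ' ⊢
      exact h.hb v hvX b hvb u hu huJ' hne)
    (by
      intro b u v hne hu hv huJ hvJ huJ' hvJ' hr
      simp only [Finset.mem_union, Finset.mem_sdiff] at huJ' hvJ' hr
      have h1 : u ∉ X := fun h' => h.hX u h' huJ
      have h2 : v ∉ X := fun h' => h.hX v h' hvJ
      exact h.hc b u v hne hu hv huJ hvJ (by tauto) (by tauto) hr)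
  refine ⟨hm.1, ⟨⟨s', hm.1⟩, hm.2.1⟩, hm.2.2, card_ex h.hX h.hY, ?_⟩
  apply n0_le
  · intro v hv hv' b hb
    have hvY : v ∈ Y := by
      simp only [Finset.mem_union, Finset.mem_sdiff] at hv'; tauto
    simp only [Finset.mem_union, Finset.mem_sdiff]
    exact h.hE v hvY b hb
  · intro b hb
    obtain ⟨h1, u, hu, hu'⟩ := h.hF b hb
    exact ⟨h1, u, hu, by simp [hu']⟩

theorem Ex.contra {J X Y : Finset A} {E F : Finset B} {s' : A → Bool} (h : Ex H J X Y E F s')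
    (hO : H.Opt J) (hn : X.card + E.card < Y.card + F.card) : False := by
  obtain ⟨_, h1, _, h3, h4⟩ := h.res hO.1.2
  exact hO.lt_false h1 (by omega)

/-- the condition hc when `s' = s` on `J \ Y` and the removed points are in no triple -/
theorem hc_s {J X Y : Finset A} {s s' : A → Bool} (hs : H.Val J s)
    (ha : ∀ v ∈ Y, H.nt J v) (hX : ∀ v ∈ X, v ∉ J)
    (hss : ∀ v ∈ J, v ∉ Y → s' v = s v) :
    ∀ b u v, u ≠ v → u ∈ H.pt b → v ∈ H.pt b → u ∈ J → v ∈ J → u ∉ Y → v ∉ Y →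
      (∀ r ∈ H.pt b, (r ∈ J ∧ r ∉ Y ∨ r ∈ X) → r = u ∨ r = v) → s' u ≠ s' v := by
  intro b u v hne hu hv huJ hvJ huY hvY hr
  rw [hss u huJ huY, hss v hvJ hvY]
  rcases tr_cases_mem hu huJ with h | ⟨w, h⟩ | h
  · exact absurd (h.2.2 v hv hvJ) hne.symm
  · have : v = w := by
      rcases h.2.2.2.2.2 v hv hvJ with h' | h'
      · exact absurd h' hne.symm
      · exact h'
    subst this
    exact hs b u v h
  · exfalso
    obtain ⟨w, h1, h2, h3, h4⟩ := ex_pt2 hu hv hne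
    by_cases hw : w ∈ Y
    · exact ha w hw b (mem_bl.2 h3) h
    · rcases hr w h3 (Or.inl ⟨h w h3, hw⟩) with h5 | h5
      · exact h1 h5.symm
      · exact h2 h5.symm


/-- exchange data creating one isolated triple block `t` -/
structure Ex3 (H : Cub A B) (J X Y : Finset A) (E F : Finset B) (s' : A → Bool) (t : B) : Prop where
  hX : ∀ v ∈ X, v ∉ J
  hY : ∀ v ∈ Y, v ∈ J
  hb : ∀ v ∈ X, ∀ b, b ≠ t → v ∈ H.pt b → ∀ u ∈ H.pt b, (u ∈ J ∧ u ∉ Y ∨ u ∈ X) → u ≠ v →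
      (∀ r ∈ H.pt b, (r ∈ J ∧ r ∉ Y ∨ r ∈ X) → r = u ∨ r = v) ∧ s' u ≠ s' v ∧
      (u ∈ J → H.nt J u)
  hc : ∀ b u v, u ≠ v → u ∈ H.pt b → v ∈ H.pt b → u ∈ J → v ∈ J → u ∉ Y → v ∉ Y → b ≠ t →
      (∀ r ∈ H.pt b, (r ∈ J ∧ r ∉ Y ∨ r ∈ X) → r = u ∨ r = v) → s' u ≠ s' v
  hE : ∀ v ∈ Y, ∀ b, v ∈ H.pt b → (∃ u ∈ H.pt b, (u ∈ J ∧ u ∉ Y ∨ u ∈ X)) ∨ b ∈ E
  hF : ∀ b ∈ F, H.U J b ∧ ∃ u ∈ H.pt b, u ∈ X
  ht : ∀ a ∈ H.pt t, (a ∈ J ∧ a ∉ Y ∨ a ∈ X) ∧ ∀ b, a ∈ H.pt b → b ≠ t →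
      ∀ u ∈ H.pt b, (u ∈ J ∧ u ∉ Y ∨ u ∈ X) → u = a

theorem Ex3.contra {J X Y : Finset A} {E F : Finset B} {s' : A → Bool} {t : B}
    (h : Ex3 H J X Y E F s' t) (hO : H.Opt J) (hn : X.card + E.card < Y.card + F.card) :
    False := by
  have hI := hO.1.2
  have hm : ∀ u, u ∈ (J \ Y) ∪ X ↔ (u ∈ J ∧ u ∉ Y ∨ u ∈ X) := by
    intro u; simp only [Finset.mem_union, Finset.mem_sdiff]
  have key : ∀ b, b ≠ t → H.Tr ((J \ Y) ∪ X) b → H.Tr J b := by
    intro b hbt hT u hu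
    by_contra huJ
    have huX : u ∈ X := by
      have := (hm u).1 (hT u hu); tauto
    obtain ⟨v, w, h1, h2, h3, hv, hw, h4⟩ := ex_pt1 hu
    have := (h.hb u huX b hbt hu v hv ((hm v).1 (hT v hv)) h1.symm).1 w hw ((hm w).1 (hT w hw))
    rcases this with h | h
    · exact h3 h.symm
    · exact h2 h.symm
  have hgood : H.Good ((J \ Y) ∪ X) := by
    refine ⟨⟨s', ?_⟩, ?_⟩
    · intro b u v hQ
      obtain ⟨hne, hu, hv, huJ, hvJ, hr⟩ := hQ
      simp only [hm] at huJ hvJ hr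
      have hbt : b ≠ t := by
        rintro rfl
        obtain ⟨w, h1, h2, h3, h4⟩ := ex_pt2 hu hv hne
        rcases hr w h3 (h.ht w h3).1 with h5 | h5
        · exact h1 h5.symm
        · exact h2 h5.symm
      by_cases huX : u ∈ X
      · exact (h.hb u huX b hbt hu v hv hvJ hne.symm).2.1.symm
      · by_cases hvX : v ∈ X
        · exact (h.hb v hvX b hbt hv u hu huJ hne).2.1
        · have h1 : u ∈ J ∧ u ∉ Y := by tauto
          have h2 : v ∈ J ∧ v ∉ Y := by tauto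
          exact h.hc b u v hne hu hv h1.1 h2.1 h1.2 h2.2 hbt hr
    · intro b hT a ha b' hb' hne
      rw [mem_bl] at hb'
      by_cases hbt : b = t
      · subst hbt
        refine ⟨hb', hT a ha, fun u hu huJ => ?_⟩
        exact (h.ht a ha).2 b' hb' hne u hu ((hm u).1 huJ)
      · have hT' := key b hbt hT
        have hP := hI b hT' a ha b' (mem_bl.2 hb') hne
        have hbt' : b' ≠ t := by
          rintro rfl
          obtain ⟨v, w, h1, h2, h3, hv, hw, h4⟩ := ex_pt1 ha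
          exact h1 ((h.ht a hP.1).2 b ha hbt v hv ((hm v).1 (hT v hv))).symm
        refine ⟨hb', hT a ha, fun r hr hrJ => ?_⟩
        by_contra hra
        have hrn : r ∉ J := fun h' => hra (hP.2.2 r hr h')
        have hrX : r ∈ X := by have := (hm r).1 hrJ; tauto
        have := (h.hb r hrX b' hbt' hr a hb' ((hm a).1 (hT a ha)) (fun h => hra h.symm)).2.2
          (hT' a ha)
        exact this b (mem_bl.2 ha) hT'
  refine hO.lt_false hgood ?_
  have h3 := card_ex h.hX h.hY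
  have h4 : H.n0 ((J \ Y) ∪ X) + F.card ≤ H.n0 J + E.card := by
    apply n0_le
    · intro v hv hv' b hb
      have hvY : v ∈ Y := by
        rw [hm] at hv'; tauto
      simp only [hm]
      exact h.hE v hvY b hb
    · intro b hb
      obtain ⟨h1, u, hu, hu'⟩ := h.hF b hb
      exact ⟨h1, u, hu, by simp [hu']⟩
  omega

end count

end Cub

end Pool.Agent.Helper65.Inj
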