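import Mathlib
import Pool.Agent.Helper65.Inj.JBase

namespace Pool.Agent.Helper65.Inj

open Classical

set_option linter.unusedSectionVars false
set_option linter.unusedVariables false

namespace Cub

variable {A B : Type} [Fintype A] [Fintype B] {H : Cub A B}

/-- a member of a pair block is in no triple -/
theorem Q.nt {J : Finset A} {b : B} {u v : A} (hI : H.Iso J) (h : H.Q J b u v) : H.nt J u := by
  intro c hc hT
  obtain ⟨hne, hu, hv, huJ, hvJ, hr⟩ := h
  by_cases hbc : b = c
  · subst hbc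
    obtain ⟨w, h1, h2, h3, h4⟩ := ex_pt2 hu hv hne
    rcases hr w h3 (hT w h3) with h5 | h5
    · exact h1 h5.symm
    · exact h2 h5.symm
  · have := hI c hT u (mem_bl.1 hc) b (mem_bl.2 hu) hbc
    exact hne (this.2.2 v hv hvJ).symm

/-- F0: every point of J has a private block -/
theorem F0 {J : Finset A} (hO : H.Opt J) {v : A} (hv : v ∈ J) : ∃ b, H.P J b v := by
  by_contra hcon
  push Not at hcon
  obtain ⟨⟨s, hs⟩, hI⟩ := hO.1
  have hnt : H.nt J v := by
    intro c hc hT
    obtain ⟨d, e, h1, h2, h3, h4, h5, h6⟩ := ex_bl1 (mem_bl.1 hc)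
    exact hcon d (hI c hT v (mem_bl.1 hc) d (mem_bl.2 h4) h1.symm)
  have hEx : Ex H J ∅ {v} ∅ ∅ s := by
    refine ⟨by simp, by simp [hv], by simp, ?_, ?_, by simp⟩
    · exact hc_s hs (by simpa using hnt) (by simp) (by simp)
    · intro u hu b hb
      left
      simp at hu; subst hu
      rcases tr_cases_mem hb hv with h | ⟨w, h⟩ | h
      · exact absurd h (hcon b)
      · exact ⟨w, h.2.2.1, Or.inl ⟨h.2.2.2.2.1, by simpa using h.1.symm⟩⟩
      · exact absurd h (hnt b (mem_bl.2 hb))
  exact hEx.contra hO (by simp)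

/-- F1: a point outside J is in at most one unhit block -/
theorem F1 {J : Finset A} (hO : H.Opt J) {v : A} {b c : B} (hb : v ∈ H.pt b) (hc : v ∈ H.pt c)
    (hUb : H.U J b) (hUc : H.U J c) : b = c := by
  by_contra hbc
  obtain ⟨⟨s, hs⟩, hI⟩ := hO.1
  have hvJ : v ∉ J := hUb v hb
  obtain ⟨d, h1, h2, hd, hall⟩ := ex_bl2 hb hc hbc
  have hcard : ({b, c} : Finset B).card = 2 := Finset.card_pair hbc
  rcases H.tr_cases J d with hU | ⟨j, hP⟩ | ⟨j, k, hQ⟩ | hT
  · -- third block unhit
    have hEx : Ex H J {v} ∅ ∅ {b, c} s := by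
      refine ⟨by simpa using hvJ, by simp, ?_, ?_, by simp, ?_⟩
      · unfold U at *; grind
      · exact hc_s hs (by simp) (by simpa using hvJ) (by simp)
      · unfold U at *; grind
    exact hEx.contra hO (by simp [hcard])
  · by_cases hnt : H.nt J j
    · have hEx : Ex H J {v} ∅ ∅ {b, c} (fun a => if a = v then !(s j) else s a) := by
        refine ⟨by simpa using hvJ, by simp, ?_, ?_, by simp, ?_⟩
        · unfold U P at *; grind
        · exact hc_s hs (by simp) (by simpa using hvJ) (by grind)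
        · unfold U at *; grind
      exact hEx.contra hO (by simp [hcard])
    · unfold nt at hnt
      push Not at hnt
      obtain ⟨t, ht, hT⟩ := hnt
      rw [mem_bl] at ht
      obtain ⟨k, l, hjk, hjl, hkl, hk, hl, htall⟩ := ex_pt1 ht
      have htd : t ≠ d := by
        rintro rfl
        exact hvJ (hT v hd)
      obtain ⟨e, h3, h4, he, heall⟩ := ex_bl2 ht hP.1 htd
      have hke := hI t hT k hk
      have hle := hI t hT l hl
      have hEx : Ex H J {v} {j} {e} {b, c} (fun a => if a = k then true else if a = l then false else s a) := by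
        refine ⟨by simpa using hvJ, by simp [hP.2.1], ?_, ?_, ?_, ?_⟩
        · unfold U P at *; grind
        · intro b' u w hne hu hw huJ hwJ huY hwY hr
          by_cases hbt : b' = t
          · subst hbt; grind
          · have hQ : H.Q J b' u w := by
              rcases tr_cases_mem hu huJ with h | ⟨w', h⟩ | h
              · exact absurd (h.2.2 w hw hwJ) hne.symm
              · have : w = w' := by
                  rcases h.2.2.2.2.2 w hw hwJ with h' | h'
                  · exact absurd h' hne.symm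
                  · exact h'
                subst this; exact h
              · exfalso
                obtain ⟨r, h1', h2', h3', h4'⟩ := ex_pt2 hu hw hne
                have : r = j := by
                  by_contra hrj
                  have := hr r h3' (Or.inl ⟨h r h3', by simpa using hrj⟩)
                  grind
                subst this
                have := hI t hT r ht b' (mem_bl.2 h3') hbt
                exact h1' (this.2.2 u hu (h u hu))
            have h5 : u ≠ k ∧ u ≠ l ∧ w ≠ k ∧ w ≠ l := by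
              refine ⟨?_, ?_, ?_, ?_⟩
              · rintro rfl; exact hne.symm ((hke b' (mem_bl.2 hu) hbt).2.2 w hw hwJ)
              · rintro rfl; exact hne.symm ((hle b' (mem_bl.2 hu) hbt).2.2 w hw hwJ)
              · rintro rfl; exact hne ((hke b' (mem_bl.2 hw) hbt).2.2 u hu huJ)
              · rintro rfl; exact hne ((hle b' (mem_bl.2 hw) hbt).2.2 u hu huJ)
            simp only [h5, if_false]
            exact hs _ _ _ hQ
        · unfold U P at *; unfold Tr at hT; grind
        · unfold U at *; grind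
      exact hEx.contra hO (by simp [hcard])
  · have hntj : H.nt J j := hQ.nt hI
    have hntk : H.nt J k := hQ.symm.nt hI
    obtain ⟨hjk, hjd, hkd, hjJ, hkJ, hall2⟩ := hQ
    -- a point of the pair with exactly one private block gives a contradiction
    have main : ∀ j' k', j' ≠ k' → j' ∈ H.pt d → k' ∈ H.pt d → j' ∈ J → k' ∈ J →
        (∀ r ∈ H.pt d, r ∈ J → r = j' ∨ r = k') → H.nt J j' → H.nt J k' →
        ∀ e, j' ∈ H.pt e → e ≠ d → ¬ H.P J e j' → False := by
      intro j k hjk hjd hkd hjJ hkJ hall2 hntj hntk e hje hed heP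
      obtain ⟨w, hQe⟩ : ∃ w, H.Q J e j w := by
        rcases tr_cases_mem hje hjJ with h | h | h
        · exact absurd h heP
        · exact h
        · exact absurd h (hntj e (mem_bl.2 hje))
      obtain ⟨f, h3, h4, hf, hfall⟩ := ex_bl2 hje hjd hed
      have hEx : Ex H J {v} {j} {f} {b, c} (fun a => if a = v then !(s k) else s a) := by
        refine ⟨by simpa using hvJ, by simp [hjJ], ?_, ?_, ?_, ?_⟩
        · unfold U P Q at *; grind
        · exact hc_s hs (by simpa using hntj) (by simpa using hvJ) (by grind)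
        · unfold U P Q at *; grind
        · unfold U at *; grind
      exact hEx.contra hO (by simp [hcard])
    have hj := main j k hjk hjd hkd hjJ hkJ hall2 hntj hntk
    have hk := main k j hjk.symm hkd hjd hkJ hjJ (fun r hr hr' => (hall2 r hr hr').symm) hntk hntj
    have hEx : Ex3 H J {v} ∅ ∅ {b, c} s d := by
      refine ⟨by simpa using hvJ, by simp, ?_, ?_, by simp, ?_, ?_⟩
      · unfold U P at *; grind
      · intro b' u w hne hu hw huJ hwJ _ _ hbt hr
        rcases tr_cases_mem hu huJ with h | ⟨w', h⟩ | h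
        · exact absurd (h.2.2 w hw hwJ) hne.symm
        · have : w = w' := by
            rcases h.2.2.2.2.2 w hw hwJ with h' | h'
            · exact absurd h' hne.symm
            · exact h'
          subst this; exact hs _ _ _ h
        · exfalso
          obtain ⟨r, h1', h2', h3', h4'⟩ := ex_pt2 hu hw hne
          have := hr r h3' (Or.inl ⟨h r h3', by simp⟩)
          grind
      · unfold U at *; grind
      · have hvj : v ≠ j := fun h => hvJ (h ▸ hjJ)
        have hvk : v ≠ k := fun h => hvJ (h ▸ hkJ)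
        intro a ha
        rcases pt_cases hd hjd hkd hvj hvk hjk ha with rfl | rfl | rfl
        · unfold U P at *; grind
        · refine ⟨Or.inl ⟨hjJ, by simp⟩, fun b' hb' hne u hu hu' => ?_⟩
          have := hj b' hb' hne
          have hP : H.P J b' a := by by_contra h; exact this h
          rcases hu' with h | h
          · exact hP.2.2 u hu h.1
          · simp at h; subst h
            rcases hall b' hu with rfl | rfl | rfl
            · exact absurd hP.2.1 (hUb _ hP.1)
            · exact absurd hP.2.1 (hUc _ hP.1)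
            · exact absurd rfl hne
        · refine ⟨Or.inl ⟨hkJ, by simp⟩, fun b' hb' hne u hu hu' => ?_⟩
          have := hk b' hb' hne
          have hP : H.P J b' a := by by_contra h; exact this h
          rcases hu' with h | h
          · exact hP.2.2 u hu h.1
          · simp at h; subst h
            rcases hall b' hu with rfl | rfl | rfl
            · exact absurd hP.2.1 (hUb _ hP.1)
            · exact absurd hP.2.1 (hUc _ hP.1)
            · exact absurd rfl hne
    exact hEx.contra hO (by simp [hcard])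
  · exact hvJ (hT v hd)


/-- a point is in at most one triple -/
theorem tr_unique {J : Finset A} (hI : H.Iso J) {a : A} {b c : B} (hb : a ∈ H.pt b)
    (hc : a ∈ H.pt c) (hTb : H.Tr J b) (hTc : H.Tr J c) : b = c := by
  by_contra hne
  obtain ⟨v, w, h1, h2, h3, hv, hw, h4⟩ := ex_pt1 hb
  exact h1 ((hI c hTc a hc b (mem_bl.2 hb) hne).2.2 v hv (hTb v hv)).symm

/-- valid colouring separating the two remaining points of each triple -/
theorem val_tr {J : Finset A} (hG : H.Good J) (f : B → A) :
    ∃ s, H.Val J s ∧ ∀ t, H.Tr J t → f t ∈ H.pt t → ∀ l m, l ∈ H.pt t → m ∈ H.pt t → l ≠ m →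
      l ≠ f t → m ≠ f t → s l ≠ s m := by
  obtain ⟨⟨s, hs⟩, hI⟩ := hG
  have hch : ∀ t : B, ∃ l m : A, f t ∈ H.pt t → (f t ≠ l ∧ f t ≠ m ∧ l ≠ m ∧ l ∈ H.pt t ∧ m ∈ H.pt t ∧
      ∀ r ∈ H.pt t, r = f t ∨ r = l ∨ r = m) := by
    intro t
    by_cases h : f t ∈ H.pt t
    · obtain ⟨l, m, hlm⟩ := ex_pt1 h
      exact ⟨l, m, fun _ => hlm⟩
    · exact ⟨f t, f t, fun h' => absurd h' h⟩
  choose l m hlm using hch
  refine ⟨fun a => if (∃ t, H.Tr J t ∧ f t ∈ H.pt t ∧ a = l t) then true
      else if (∃ t, H.Tr J t ∧ f t ∈ H.pt t ∧ a = m t) then false else s a, ?_, ?_⟩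
  · intro b u v hQ
    have h1 := hQ.nt hI
    have h2 := hQ.symm.nt hI
    have g1 : ∀ u, H.nt J u → ¬ (∃ t, H.Tr J t ∧ f t ∈ H.pt t ∧ u = l t) := by
      rintro u hu ⟨t, ht, hf, rfl⟩
      exact hu t (mem_bl.2 (hlm t hf).2.2.2.1) ht
    have g2 : ∀ u, H.nt J u → ¬ (∃ t, H.Tr J t ∧ f t ∈ H.pt t ∧ u = m t) := by
      rintro u hu ⟨t, ht, hf, rfl⟩
      exact hu t (mem_bl.2 (hlm t hf).2.2.2.2.1) ht
    simp only [g1 u h1, g1 v h2, g2 u h1, g2 v h2, if_false]
    exact hs b u v hQ
  · intro t ht hf x y hx hy hxy hxf hyf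
    obtain ⟨h1, h2, h3, h4, h5, h6⟩ := hlm t hf
    have hm : ∀ a, a = m t → ¬ (∃ t, H.Tr J t ∧ f t ∈ H.pt t ∧ a = l t) := by
      rintro a rfl ⟨t', ht', hf', h'⟩
      have : t = t' := tr_unique hI h5 (h' ▸ (hlm t' hf').2.2.2.1) ht ht'
      subst this
      exact h3 h'.symm
    have hx' : x = l t ∨ x = m t := by rcases h6 x hx with h | h | h <;> tauto
    have hy' : y = l t ∨ y = m t := by rcases h6 y hy with h | h | h <;> tauto
    have e1 : (∃ t', H.Tr J t' ∧ f t' ∈ H.pt t' ∧ l t = l t') := ⟨t, ht, hf, rfl⟩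
    have e2 : (∃ t', H.Tr J t' ∧ f t' ∈ H.pt t' ∧ m t = m t') := ⟨t, ht, hf, rfl⟩
    have e3 := hm (m t) rfl
    rcases hx' with rfl | rfl <;> rcases hy' with rfl | rfl
    · exact absurd rfl hxy
    · simp only [e1, e3, e2, if_true, if_false]; simp
    · simp only [e1, e3, e2, if_true, if_false]; simp
    · exact absurd rfl hxy

/-- the condition hc when `s'` agrees with a separating colouring -/
theorem hc_tr {J X Y : Finset A} {s s' : A → Bool} {f : B → A} (hs : H.Val J s)
    (hs2 : ∀ t, H.Tr J t → f t ∈ H.pt t → ∀ l m, l ∈ H.pt t → m ∈ H.pt t → l ≠ m →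
      l ≠ f t → m ≠ f t → s l ≠ s m)
    (hf : ∀ t, H.Tr J t → (∃ y ∈ Y, y ∈ H.pt t) → f t ∈ H.pt t ∧ f t ∈ Y)
    (hX : ∀ v ∈ X, v ∉ J)
    (hss : ∀ v ∈ J, v ∉ Y → s' v = s v) :
    ∀ b u v, u ≠ v → u ∈ H.pt b → v ∈ H.pt b → u ∈ J → v ∈ J → u ∉ Y → v ∉ Y →
      (∀ r ∈ H.pt b, (r ∈ J ∧ r ∉ Y ∨ r ∈ X) → r = u ∨ r = v) → s' u ≠ s' v := by
  intro b u v hne hu hv huJ hvJ huY hvY hr
  rw [hss u huJ huY, hss v hvJ hvY]
  rcases tr_cases_mem hu huJ with h | ⟨w, h⟩ | h
  · exact absurd (h.2.2 v hv hvJ) hne.symm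
  · have : v = w := by
      rcases h.2.2.2.2.2 v hv hvJ with h' | h'
      · exact absurd h' hne.symm
      · exact h'
    subst this
    exact hs b u v h
  · obtain ⟨w, h1, h2, h3, h4⟩ := ex_pt2 hu hv hne
    by_cases hw : w ∈ Y
    · obtain ⟨h5, h6⟩ := hf b h ⟨w, hw, h3⟩
      refine hs2 b h h5 u v hu hv hne ?_ ?_
      · rintro rfl; exact huY h6
      · rintro rfl; exact hvY h6
    · exfalso
      rcases hr w h3 (Or.inl ⟨h w h3, hw⟩) with h5 | h5
      · exact h1 h5.symm
      · exact h2 h5.symm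

/-- `v` outside `J` with one unhit block `T` and two blocks `b, c` meeting `J` in exactly one
point each -/
structure XD (H : Cub A B) (J : Finset A) (v : A) (T b c : B) (j k : A) : Prop where
  vT : v ∈ H.pt T
  vb : v ∈ H.pt b
  vc : v ∈ H.pt c
  bc : b ≠ c
  hT : H.U J T
  hj : H.P J b j
  hk : H.P J c k

namespace XD

variable {J : Finset A} {v j k : A} {T b c : B}

theorem nJ (h : XD H J v T b c j k) : v ∉ J := h.hT v h.vT
theorem Tb (h : XD H J v T b c j k) : T ≠ b := by
  rintro rfl; exact h.hT.not_P h.hj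
theorem Tc (h : XD H J v T b c j k) : T ≠ c := by
  rintro rfl; exact h.hT.not_P h.hk
theorem symm (h : XD H J v T b c j k) : XD H J v T c b k j :=
  ⟨h.vT, h.vc, h.vb, h.bc.symm, h.hT, h.hk, h.hj⟩
theorem all (h : XD H J v T b c j k) {r : B} (hr : v ∈ H.pt r) : r = T ∨ r = b ∨ r = c :=
  bl_cases h.vT h.vb h.vc h.Tb h.Tc h.bc hr

end XD

/-- `j` is an end: private blocks `b, F`, pair block `D` with neighbour `p` -/
structure Lf (H : Cub A B) (J : Finset A) (j : A) (b D F : B) (p : A) : Prop where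
  hb : H.P J b j
  hF : H.P J F j
  hD : H.Q J D j p
  bF : b ≠ F

namespace Lf

variable {J : Finset A} {j p : A} {b D F : B}

theorem bD (h : Lf H J j b D F p) : b ≠ D := by
  rintro rfl
  exact h.hD.1 (h.hb.2.2 p h.hD.2.2.1 h.hD.2.2.2.2.1).symm
theorem FD (h : Lf H J j b D F p) : F ≠ D := by
  rintro rfl
  exact h.hD.1 (h.hF.2.2 p h.hD.2.2.1 h.hD.2.2.2.2.1).symm
theorem all (h : Lf H J j b D F p) {r : B} (hr : j ∈ H.pt r) : r = b ∨ r = D ∨ r = F :=
  bl_cases h.hb.1 h.hD.2.1 h.hF.1 h.bD h.bF h.FD.symm hr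
theorem symm (h : Lf H J j b D F p) : Lf H J j F D b p := ⟨h.hF, h.hb, h.hD, h.bF.symm⟩

end Lf

theorem XD.nt1 {J : Finset A} (hO : H.Opt J) {v j k : A} {T b c : B} (h : XD H J v T b c j k) :
    H.nt J j := by
  by_contra hnt
  unfold nt at hnt
  push Not at hnt
  obtain ⟨t, ht, hT⟩ := hnt
  rw [mem_bl] at ht
  obtain ⟨l, m, hjl, hjm, hlm, hl, hm, htall⟩ := ex_pt1 ht
  have hI := hO.1.2
  have hnJ := h.nJ
  have htb : t ≠ b := by rintro rfl; exact hnJ (hT v h.vb)
  have hTb := h.Tb
  have hTc := h.Tc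
  obtain ⟨f, h3, h4, hf, hfall⟩ := ex_bl2 ht h.hj.1 htb
  have hall := @XD.all _ _ _ _ _ _ _ _ _ _ _ _ h
  obtain ⟨hvT, hvb, hvc, hbc, hUT, hPj, hPk⟩ := h
  by_cases hjk : j = k
  · subst hjk
    obtain ⟨s, hs, hs2⟩ := val_tr hO.1 (fun _ => j)
    have hEx : Ex H J {v} {j} ∅ {T} s := by
      refine ⟨by simpa using hnJ, by simp [hPj.2.1], ?_, ?_, ?_, ?_⟩
      · unfold U P at *; grind
      · exact hc_tr hs hs2 (by simp) (by simpa using hnJ) (by simp)
      · unfold U P Tr at *; grind
      · unfold U at *; grind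
    exact hEx.contra hO (by simp)
  · by_cases hntk : H.nt J k
    · obtain ⟨s, hs, hs2⟩ := val_tr hO.1 (fun _ => j)
      have hEx : Ex H J {v} {j} {f} {T} (fun a => if a = v then !(s k) else s a) := by
        refine ⟨by simpa using hnJ, by simp [hPj.2.1], ?_, ?_, ?_, ?_⟩
        · unfold U P at *; grind
        · exact hc_tr hs hs2 (by simp) (by simpa using hnJ) (by grind)
        · unfold U P Tr at *; grind
        · unfold U at *; grind
      obtain ⟨_, h1, h2, h3, h4⟩ := hEx.res hI
      refine hO.n3_false h1 ?_ (n3_lt h2 hT ?_)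
      · simp only [Finset.card_singleton] at h3 h4; omega
      · intro h5
        have := h5 j ht
        simp at this
        exact hnJ (this ▸ hPj.2.1)
    · unfold nt at hntk
      push Not at hntk
      obtain ⟨t', ht', hT'⟩ := hntk
      rw [mem_bl] at ht'
      have htc : t' ≠ c := by rintro rfl; exact hnJ (hT' v hvc)
      obtain ⟨f', h3', h4', hf', hfall'⟩ := ex_bl2 ht' hPk.1 htc
      obtain ⟨l', m', hjl', hjm', hlm', hl', hm', htall'⟩ := ex_pt1 ht'
      obtain ⟨s, hs, hs2⟩ := val_tr hO.1 (fun b => if j ∈ H.pt b then j else k)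
      have hEx : Ex H J {v} {j, k} {f, f'} {T} s := by
        refine ⟨by simpa using hnJ, by simp [hPj.2.1, hPk.2.1], ?_, ?_, ?_, ?_⟩
        · unfold U P at *; grind
        · exact hc_tr hs hs2 (by grind) (by simpa using hnJ) (by simp)
        · have e1 : ∀ b, j ∈ H.pt b → b = t → ∃ u ∈ H.pt b, u ∈ J ∧ u ∉ ({j, k} : Finset A) := by
            rintro b hb rfl
            by_cases hkl : k = l
            · exact ⟨m, hm, hT m hm, by simp; exact ⟨hjm.symm, by rw [hkl]; exact hlm.symm⟩⟩
            · exact ⟨l, hl, hT l hl, by simp; exact ⟨hjl.symm, fun h => hkl h.symm⟩⟩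
          have e2 : ∀ b, k ∈ H.pt b → b = t' → ∃ u ∈ H.pt b, u ∈ J ∧ u ∉ ({j, k} : Finset A) := by
            rintro b hb rfl
            by_cases hkl : j = l'
            · exact ⟨m', hm', hT' m' hm', by simp; exact ⟨by rw [hkl]; exact hlm'.symm, hjm'.symm⟩⟩
            · exact ⟨l', hl', hT' l' hl', by simp; exact ⟨fun h => hkl h.symm, hjl'.symm⟩⟩
          intro u hu b' hb'
          simp only [Finset.mem_insert, Finset.mem_singleton] at hu
          rcases hu with rfl | rfl
          · rcases hfall b' hb' with h | h | h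
            · obtain ⟨w, hw1, hw2⟩ := e1 b' hb' h
              exact Or.inl ⟨w, hw1, Or.inl hw2⟩
            · subst h; exact Or.inl ⟨v, hvb, by simp⟩
            · subst h; right; simp
          · rcases hfall' b' hb' with h | h | h
            · obtain ⟨w, hw1, hw2⟩ := e2 b' hb' h
              exact Or.inl ⟨w, hw1, Or.inl hw2⟩
            · subst h; exact Or.inl ⟨v, hvc, by simp⟩
            · subst h; right; simp
        · intro b' hb'
          rw [Finset.mem_singleton] at hb'; subst hb'
          exact ⟨hUT, v, hvT, by simp⟩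
      obtain ⟨_, h1, h2, h3, h4⟩ := hEx.res hI
      refine hO.n3_false h1 ?_ (n3_lt h2 hT ?_)
      · have e3 : ({j, k} : Finset A).card = 2 := Finset.card_pair hjk
        have e4 : ({f, f'} : Finset B).card ≤ 2 := Finset.card_le_two
        simp only [e3, Finset.card_singleton] at h3 h4
        omega
      · intro h5
        have := h5 j ht
        simp at this
        exact hnJ (this ▸ hPj.2.1)


theorem XD.nt2 {J : Finset A} (hO : H.Opt J) {v j k : A} {T b c : B} (h : XD H J v T b c j k) :
    H.nt J k := h.symm.nt1 hO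

theorem XD.ne {J : Finset A} (hO : H.Opt J) {v j k : A} {T b c : B} (h : XD H J v T b c j k) :
    j ≠ k := by
  rintro rfl
  have hnt := h.nt1 hO
  have hnJ := h.nJ
  have hall := @XD.all _ _ _ _ _ _ _ _ _ _ _ _ h
  obtain ⟨⟨s, hs⟩, hI⟩ := hO.1
  obtain ⟨hvT, hvb, hvc, hbc, hUT, hPj, hPk⟩ := h
  have hEx : Ex H J {v} ∅ ∅ {T} (fun a => if a = v then !(s j) else s a) := by
    refine ⟨by simpa using hnJ, by simp, ?_, ?_, ?_, ?_⟩
    · unfold U P at *; grind
    · exact hc_s hs (by simp) (by simpa using hnJ) (by grind)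
    · simp
    · unfold U at *; grind
  obtain ⟨_, h1, h2, h3, h4⟩ := hEx.res hI
  simp only [Finset.card_singleton, Finset.card_empty] at h3 h4
  exact hO.n0_false h1 (by omega) (n3_le h2) (by omega)

theorem XD.opp {J : Finset A} (hO : H.Opt J) {v j k : A} {T b c : B} (h : XD H J v T b c j k)
    {s : A → Bool} (hs : H.Val J s) : s j ≠ s k := by
  intro hjk
  have hnt := h.nt1 hO
  have hnt2 := h.nt2 hO
  have hne := h.ne hO
  have hnJ := h.nJ
  have hall := @XD.all _ _ _ _ _ _ _ _ _ _ _ _ h
  obtain ⟨_, hI⟩ := hO.1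
  obtain ⟨hvT, hvb, hvc, hbc, hUT, hPj, hPk⟩ := h
  have hEx : Ex H J {v} ∅ ∅ {T} (fun a => if a = v then !(s j) else s a) := by
    refine ⟨by simpa using hnJ, by simp, ?_, ?_, ?_, ?_⟩
    · unfold U P at *; grind
    · exact hc_s hs (by simp) (by simpa using hnJ) (by grind)
    · simp
    · unfold U at *; grind
  obtain ⟨_, h1, h2, h3, h4⟩ := hEx.res hI
  simp only [Finset.card_singleton, Finset.card_empty] at h3 h4
  exact hO.n0_false h1 (by omega) (n3_le h2) (by omega)

/-- the attached point `j` is an end -/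
theorem XD.lf {J : Finset A} (hO : H.Opt J) {v j k : A} {T b c : B} (h : XD H J v T b c j k) :
    ∃ D F p, Lf H J j b D F p := by
  have hnt := h.nt1 hO
  have hnt2 := h.nt2 hO
  have hne := h.ne hO
  have hnJ := h.nJ
  obtain ⟨⟨s, hs⟩, hI⟩ := hO.1
  have hopp : ∀ s, H.Val J s → s j ≠ s k := fun s hs => h.opp hO hs
  have hall := @XD.all _ _ _ _ _ _ _ _ _ _ _ _ h
  obtain ⟨hvT, hvb, hvc, hbc, hUT, hPj, hPk⟩ := h
  obtain ⟨D, F, h1, h2, h3, hD, hF, hjall⟩ := ex_bl1 hPj.1
  have hjJ := hPj.2.1
  rcases tr_cases_mem hD hjJ with hPD | ⟨p, hQD⟩ | hT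
  · rcases tr_cases_mem hF hjJ with hPF | ⟨q, hQF⟩ | hT
    · exfalso
      have hval : H.Val J (fun a => if a = j then !(s j) else s a) := by
        intro b' u w hQ
        have hu : u ≠ j := by
          rintro rfl
          rcases hjall b' hQ.2.1 with rfl | rfl | rfl
          · exact hQ.1 (hPj.2.2 w hQ.2.2.1 hQ.2.2.2.2.1).symm
          · exact hQ.1 (hPD.2.2 w hQ.2.2.1 hQ.2.2.2.2.1).symm
          · exact hQ.1 (hPF.2.2 w hQ.2.2.1 hQ.2.2.2.2.1).symm
        have hw : w ≠ j := by
          rintro rfl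
          rcases hjall b' hQ.2.2.1 with rfl | rfl | rfl
          · exact hQ.1 (hPj.2.2 u hQ.2.1 hQ.2.2.2.1)
          · exact hQ.1 (hPD.2.2 u hQ.2.1 hQ.2.2.2.1)
          · exact hQ.1 (hPF.2.2 u hQ.2.1 hQ.2.2.2.1)
        simp only [hu, hw, if_false]
        exact hs _ _ _ hQ
      have e1 := hopp s hs
      have e2 := hopp _ hval
      simp only [if_true, Ne.symm hne, if_false] at e2
      revert e1 e2
      cases s j <;> cases s k <;> simp
    · exact ⟨F, D, q, hPj, hPD, hQF, h1⟩
    · exact absurd hT (hnt F (mem_bl.2 hF))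
  · rcases tr_cases_mem hF hjJ with hPF | ⟨q, hQF⟩ | hT
    · exact ⟨D, F, p, hPj, hPF, hQD, h2⟩
    · exfalso
      have hEx : Ex H J {v} {j} ∅ {T} (fun a => if a = v then !(s k) else s a) := by
        refine ⟨by simpa using hnJ, by simp [hPj.2.1], ?_, ?_, ?_, ?_⟩
        · unfold U P at *; grind
        · exact hc_s hs (by simpa using hnt) (by simpa using hnJ) (by grind)
        · unfold U P Q at *; grind
        · unfold U at *; grind
      exact hEx.contra hO (by simp)
    · exact absurd hT (hnt F (mem_bl.2 hF))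
  · exact absurd hT (hnt D (mem_bl.2 hD))

/-- `v` is not on the other private block -/
theorem XD.notF {J : Finset A} (hO : H.Opt J) {v j k : A} {T b c : B} (h : XD H J v T b c j k)
    {D F : B} {p : A} (hl : Lf H J j b D F p) : v ∉ H.pt F := by
  intro hv
  rcases h.all hv with rfl | rfl | rfl
  · exact h.hT.not_P hl.hF
  · exact hl.bF rfl
  · exact h.ne hO (h.hk.2.2 j hl.hF.1 hl.hF.2.1)

end Cub

end Pool.Agent.Helper65.Inj
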