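import Mathlib
import Pool.Agent.Helper65.Inj.JFacts

/-!
Definitions and module statements of the J part.
-/

namespace Pool.Agent.Helper65.Inj

open Classical

set_option linter.unusedSectionVars false
set_option linter.unusedVariables false

namespace Cub

variable {A B : Type} (H : Cub A B)

/-- adjacency in J through a pair block -/
def Adj (J : Finset A) (u v : A) : Prop := ∃ b, H.Q J b u v

/-- reachability in J -/
def Rc (J : Finset A) : A → A → Prop := Relation.ReflTransGen (H.Adj J)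

/-- ends: two private blocks and one pair block -/
def IsLf (J : Finset A) (a : A) : Prop := ∃ b D F p, Lf H J a b D F p

/-- two pair blocks -/
def Two (J : Finset A) (y : A) : Prop :=
  ∃ Y1 Y2 y1 y2, Y1 ≠ Y2 ∧ H.Q J Y1 y y1 ∧ H.Q J Y2 y y2

/-- heavy points: attached points sharing at most one block with any other point outside J -/
def Hv (J : Finset A) (u : A) : Prop :=
  (∃ T b c j k, XD H J u T b c j k) ∧
  ∀ w, w ∉ J → w ≠ u → ∀ c c', u ∈ H.pt c → u ∈ H.pt c' → w ∈ H.pt c → w ∈ H.pt c' → c = c'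

/-- long pair: no common block -/
def LP (j k : A) : Prop := ∀ D, ¬ (j ∈ H.pt D ∧ k ∈ H.pt D)

/-- long attached point -/
def Lg (J : Finset A) (u : A) : Prop := ∃ T b c j k, XD H J u T b c j k ∧ H.LP j k

/-- bad token -/
def Bad (J : Finset A) (T : B) : Prop :=
  H.U J T ∧ ∃ u v, u ∈ H.pt T ∧ v ∈ H.pt T ∧ u ≠ v ∧ H.Hv J u ∧ H.Hv J v ∧ H.Lg J u

/-- token `{x,y,z}` whose points `y,z` share a second block and have the common outer neighbour `o` -/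
def DD (J : Finset A) (T : B) (x y z o : A) : Prop :=
  H.U J T ∧ x ∈ H.pt T ∧ y ∈ H.pt T ∧ z ∈ H.pt T ∧ x ≠ y ∧ x ≠ z ∧ y ≠ z ∧
  o ∉ J ∧ o ∉ H.pt T ∧ (∃ g, g ≠ T ∧ y ∈ H.pt g ∧ z ∈ H.pt g) ∧
  (∃ be, y ∈ H.pt be ∧ o ∈ H.pt be) ∧ (∃ ga, z ∈ H.pt ga ∧ o ∈ H.pt ga)

/-- in addition `o` and `x` share a block -/
def K4d (J : Finset A) (T : B) (x y z o : A) : Prop :=
  H.DD J T x y z o ∧ ∃ de, x ∈ H.pt de ∧ o ∈ H.pt de

variable [Fintype A] [Fintype B]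

noncomputable def nB (J : Finset A) : ℕ := (Finset.univ.filter (fun b => H.Bad J b)).card

noncomputable def nH (J : Finset A) : ℕ := (Finset.univ.filter (fun a => H.Hv J a)).card

noncomputable def nN (J : Finset A) : ℕ :=
  (Finset.univ.filter (fun T => ∃ x y z o, H.K4d J T x y z o ∧ H.Lg J y)).card

/-- optimal with the least number of bad tokens -/
def FOpt (J : Finset A) : Prop := H.Opt J ∧ ∀ J', H.Opt J' → H.nB J ≤ H.nB J'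

/-- final choice of J -/
def GOpt (J : Finset A) : Prop :=
  H.Opt J ∧ H.nB J = 0 ∧ ∀ J', H.Opt J' → H.nB J' = 0 →
    (H.nH J < H.nH J' ∨ (H.nH J = H.nH J' ∧ H.nN J ≤ H.nN J'))

/-- the dropped points -/
noncomputable def DS (J : Finset A) : Finset A :=
  Finset.univ.filter (fun v => v ∉ J ∧ ∃ T, H.U J T ∧ v ∈ H.pt T ∧
    ((H.Hv J v ∧ ∃ v', v' ≠ v ∧ v' ∈ H.pt T ∧ H.Hv J v') ∨ ∃ x z o, H.K4d J T x v z o))

/-- state of the walk -/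
structure WS (J : Finset A) (n : ℕ) (w e1 e2 y : ℕ → A) (T D1 D2 : ℕ → B)
    (x : A) (b c : B) (j k : A) : Prop where
  hJ : H.FOpt J
  wT : ∀ i ≤ n, w i ∈ H.pt (T i)
  wD1 : ∀ i ≤ n, w i ∈ H.pt (D1 i)
  wD2 : ∀ i ≤ n, w i ∈ H.pt (D2 i)
  TD1 : ∀ i ≤ n, T i ≠ D1 i
  TD2 : ∀ i ≤ n, T i ≠ D2 i
  D12 : ∀ i ≤ n, D1 i ≠ D2 i
  wJ : ∀ i ≤ n, w i ∉ J
  hD1 : ∀ i ≤ n, H.P J (D1 i) (e1 i)
  hD2 : ∀ i ≤ n, H.P J (D2 i) (e2 i)
  lf1 : ∀ i ≤ n, H.IsLf J (e1 i)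
  lf2 : ∀ i ≤ n, H.IsLf J (e2 i)
  ne : ∀ i ≤ n, e1 i ≠ e2 i
  rc : ∀ i ≤ n, H.Rc J (e1 i) (e2 i)
  hTn : H.U J (T n)
  hT : ∀ i < n, H.P J (T i) (y i)
  dis : ∀ i ≤ n, ∀ i' ≤ n, i ≠ i' → ¬ H.Rc J (e1 i) (e1 i')
  yrc : ∀ i < n, H.Rc J (y i) (e1 (i + 1))
  ytwo : ∀ i < n, H.Two J (y i) ∨
    (H.LP (e1 i) (e2 i) ∧ y i = e1 (i + 1) ∧ (∃ D, H.Q J D (e1 (i + 1)) (e2 (i + 1))) ∧
      (i + 1 < n → H.Two J (y (i + 1))) ∧ (i + 1 = n → H.LP j k ∧ ¬ H.Rc J (e1 i) j))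
  hx : XD H J x (T n) b c j k
  xw : x ≠ w n
  hv : H.Hv J x
  lgo : H.LP j k ∨ H.LP (e1 n) (e2 n)
  TD : ∀ i < n, T i ≠ D1 (i + 1)

end Cub

open Cub

/-! ### module statements of the J part -/

/-- JE1: three ends in one component -/
def ST_E3 : Prop := ∀ (A B : Type) [Fintype A] [Fintype B] (H : Cub A B) (J : Finset A) (a b c : A),
  H.Opt J → H.IsLf J a → H.IsLf J b → H.IsLf J c → H.Rc J a b → H.Rc J a c → a ≠ b → a ≠ c → b = c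

/-- JE2: always different colours implies same component -/
def ST_OR : Prop := ∀ (A B : Type) [Fintype A] [Fintype B] (H : Cub A B) (J : Finset A) (a b : A),
  H.Opt J → a ∈ J → (∀ s, H.Val J s → s a ≠ s b) → H.Rc J a b

/-- JE3: two attached points sharing an attached end have the same pair -/
def ST_End : Prop := ∀ (A B : Type) [Fintype A] [Fintype B] (H : Cub A B) (J : Finset A)
  (u v a k k' : A) (T b c T' b' c' : B),
  H.Opt J → XD H J u T b c a k → XD H J v T' b' c' a k' → k = k'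

/-- JU1 -/
def ST_U1 : Prop := ∀ (A B : Type) [Fintype A] [Fintype B] (H : Cub A B) (J : Finset A)
  (u v j k : A) (T b c T' b' c' : B),
  H.Opt J → XD H J u T b c j k → XD H J v T' b' c' j k → u ≠ v → H.Hv J u → ¬ H.LP j k

/-- JU2: different tokens and no common block -/
def ST_U1s : Prop := ∀ (A B : Type) [Fintype A] [Fintype B] (H : Cub A B) (J : Finset A)
  (u v j k : A) (T b c T' b' c' : B),
  H.Opt J → XD H J u T b c j k → XD H J v T' b' c' j k → (∀ r, ¬ (u ∈ H.pt r ∧ v ∈ H.pt r)) → False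

/-- JR1: rotation at an end -/
def ST_Rot1 : Prop := ∀ (A B : Type) [Fintype A] [Fintype B] (H : Cub A B) (J : Finset A)
  (v j k p : A) (T b c D F : B),
  H.Opt J → XD H J v T b c j k → Lf H J j b D F p →
  H.Opt ((J \ {j}) ∪ {v}) ∧ XD H ((J \ {j}) ∪ {v}) j F b D v p

/-- JR2: rotation at the neighbour of an end (long pair) -/
def ST_Rot2 : Prop := ∀ (A B : Type) [Fintype A] [Fintype B] (H : Cub A B) (J : Finset A)
  (v j k p : A) (T b c D F : B),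
  H.Opt J → XD H J v T b c j k → Lf H J j b D F p → H.LP j k →
  ∃ D' G q, D ≠ D' ∧ H.Q J D' p q ∧ H.P J G p ∧ q ≠ j ∧ q ≠ k ∧ p ≠ k ∧
    H.Opt ((J \ {p}) ∪ {v}) ∧ XD H ((J \ {p}) ∪ {v}) p G D D' j q

/-- JM: heavy points after a rotation were heavy before -/
def ST_M : Prop := ∀ (A B : Type) [Fintype A] [Fintype B] (H : Cub A B) (J : Finset A)
  (v w j k k1 k2 : A) (T b c N c1 c2 : B),
  H.Opt J → H.Opt ((J \ {w}) ∪ {v}) → w ∈ J → XD H J v T b c j k →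
  XD H ((J \ {w}) ∪ {v}) w N c1 c2 k1 k2 →
  ∀ u t, H.Hv ((J \ {w}) ∪ {v}) u → u ∈ H.pt t → H.U ((J \ {w}) ∪ {v}) t → t ≠ N →
    H.U J t ∧ t ≠ T ∧ H.Hv J u ∧ (H.Lg ((J \ {w}) ∪ {v}) u → H.Lg J u)

/-- JB: bad tokens move -/
def ST_B : Prop := ∀ (A B : Type) [Fintype A] [Fintype B] (H : Cub A B) (J : Finset A)
  (v w j k k1 k2 : A) (T b c N c1 c2 : B),
  H.FOpt J → H.Bad J T → H.Opt ((J \ {w}) ∪ {v}) → w ∈ J → XD H J v T b c j k →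
  XD H ((J \ {w}) ∪ {v}) w N c1 c2 k1 k2 →
  H.FOpt ((J \ {w}) ∪ {v}) ∧ H.Bad ((J \ {w}) ∪ {v}) N

/-- JFr: components which are not attached to `v` are not changed by a rotation -/
def ST_Fr : Prop := ∀ (A B : Type) [Fintype A] [Fintype B] (H : Cub A B) (J : Finset A)
  (v w j k : A) (T b c : B),
  H.Opt J → H.Opt ((J \ {w}) ∪ {v}) → w ∈ J → XD H J v T b c j k → H.Rc J j w → H.nt J w →
  ∀ a, a ∈ J → ¬ H.Rc J a j →
    a ∈ (J \ {w}) ∪ {v} ∧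
    (∀ r, a ∈ H.pt r → ∀ u ∈ H.pt r, (u ∈ J ↔ u ∈ (J \ {w}) ∪ {v})) ∧
    (∀ u, H.Rc J a u ↔ H.Rc ((J \ {w}) ∪ {v}) a u)

/-- JW1: long pair, both on the F side -/
def ST_W1 : Prop := ∀ (A B : Type) [Fintype A] [Fintype B] (H : Cub A B) (J : Finset A)
  (w x y e1 e2 p1 p2 : A) (T T1 D1 D2 G1 G2 F1 F2 : B),
  H.Opt J → w ∉ J → w ∈ H.pt T1 → w ∈ H.pt D1 → w ∈ H.pt D2 → H.P J T1 y → H.nt J y →
  y ≠ e1 → y ≠ e2 → e1 ≠ e2 → H.LP e1 e2 → Lf H J e1 D1 G1 F1 p1 → Lf H J e2 D2 G2 F2 p2 →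
  XD H J x T F1 F2 e1 e2 → False

/-- JW2: long pair, one on the D side, y with two pair blocks -/
def ST_W2 : Prop := ∀ (A B : Type) [Fintype A] [Fintype B] (H : Cub A B) (J : Finset A)
  (w x y e1 e2 p1 p2 : A) (T T1 D1 D2 G1 G2 F1 F2 : B),
  H.Opt J → w ∉ J → w ∈ H.pt T1 → w ∈ H.pt D1 → w ∈ H.pt D2 → H.P J T1 y → H.Two J y →
  ¬ H.Rc J y e1 → H.Rc J e1 e2 → e1 ≠ e2 → H.LP e1 e2 → Lf H J e1 D1 G1 F1 p1 →
  Lf H J e2 D2 G2 F2 p2 → XD H J x T D1 F2 e1 e2 → False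

/-- JW3: long pair, one on the D side, y an end of a short pair, next y2 with two pair blocks -/
def ST_W3 : Prop := ∀ (A B : Type) [Fintype A] [Fintype B] (H : Cub A B) (J : Finset A)
  (w x y e1 e2 p1 p2 p q y2 : A) (T T1 D1 D2 G1 G2 F1 F2 E E' T' Dy : B),
  H.Opt J → w ∉ J → w ∈ H.pt T1 → w ∈ H.pt D1 → w ∈ H.pt D2 → H.P J T1 y →
  p ∉ J → p ∈ H.pt E → p ∈ H.pt E' → p ∈ H.pt T' → H.P J E' q → H.P J T' y2 →
  Lf H J y T1 Dy E q → H.Two J y2 → T' ≠ E' → T' ≠ E →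
  ¬ H.Rc J y e1 → ¬ H.Rc J y2 e1 → ¬ H.Rc J y2 y →
  H.Rc J e1 e2 → e1 ≠ e2 → H.LP e1 e2 → Lf H J e1 D1 G1 F1 p1 →
  Lf H J e2 D2 G2 F2 p2 → XD H J x T D1 F2 e1 e2 → False

/-- JW4: short pair, both on the F side -/
def ST_W4 : Prop := ∀ (A B : Type) [Fintype A] [Fintype B] (H : Cub A B) (J : Finset A)
  (w x y e1 e2 : A) (T T1 D1 D2 G F1 F2 : B),
  H.Opt J → w ∉ J → w ∈ H.pt T1 → w ∈ H.pt D1 → w ∈ H.pt D2 → H.P J T1 y → H.Two J y →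
  ¬ H.Rc J y e1 → Lf H J e1 D1 G F1 e2 → Lf H J e2 D2 G F2 e1 →
  XD H J x T F1 F2 e1 e2 → False

/-- JW5: short pair, one on the D side -/
def ST_W5 : Prop := ∀ (A B : Type) [Fintype A] [Fintype B] (H : Cub A B) (J : Finset A)
  (w x y e1 e2 : A) (T T1 D1 D2 G F1 F2 : B),
  H.Opt J → w ∉ J → w ∈ H.pt T1 → w ∈ H.pt D1 → w ∈ H.pt D2 → H.P J T1 y → H.Two J y →
  ¬ H.Rc J y e1 → Lf H J e1 D1 G F1 e2 → Lf H J e2 D2 G F2 e1 →
  XD H J x T D1 F2 e1 e2 → False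

/-- JW6 -/
def ST_W6 : Prop := ∀ (A B : Type) [Fintype A] [Fintype B] (H : Cub A B) (J : Finset A)
  (w x v v' j k e1 e2 p1 p2 : A) (T b c D Fj Fk D1 D2 G1 G2 F1 F2 : B),
  H.Opt J → XD H J w T D1 D2 e1 e2 → XD H J x T b c j k → x ≠ w →
  Lf H J j b D Fj k → Lf H J k c D Fk j → Lf H J e1 D1 G1 F1 p1 → Lf H J e2 D2 G2 F2 p2 →
  H.LP e1 e2 → j ≠ e1 → j ≠ e2 → k ≠ e1 → k ≠ e2 → v ∉ J → v' ∉ J →
  v ∈ H.pt Fj → v' ∈ H.pt Fk →
  v ∈ H.pt D1 → v ∈ H.pt F2 → v' ∈ H.pt F1 → v' ∈ H.pt D2 → False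

/-- JW7 -/
def ST_W7 : Prop := ∀ (A B : Type) [Fintype A] [Fintype B] (H : Cub A B) (J : Finset A)
  (w v q e1 e2 p1 p2 : A) (T D1 D2 G1 G2 F1 F2 Fq : B),
  H.Opt J → XD H J w T D1 D2 e1 e2 → Lf H J e1 D1 G1 F1 p1 → Lf H J e2 D2 G2 F2 p2 →
  H.LP e1 e2 → v ∉ J → v ∈ H.pt F1 → v ∈ H.pt F2 → v ∈ H.pt Fq → H.P J Fq q → H.nt J q →
  q ≠ e1 → q ≠ e2 → False

/-- JWR: no return -/
def ST_WR : Prop := ∀ (A B : Type) [Fintype A] [Fintype B] (H : Cub A B) (J : Finset A) (n : ℕ)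
  (w e1 e2 y : ℕ → A) (T D1 D2 : ℕ → B) (x : A) (b c : B) (j k : A),
  H.WS J n w e1 e2 y T D1 D2 x b c j k → ∀ i ≤ n, ¬ H.Rc J (e1 i) j

/-- JWS: step, long case -/
def ST_WSL : Prop := ∀ (A B : Type) [Fintype A] [Fintype B] (H : Cub A B) (J : Finset A) (n : ℕ)
  (w e1 e2 y : ℕ → A) (T D1 D2 : ℕ → B) (x : A) (b c : B) (j k : A),
  H.WS J n w e1 e2 y T D1 D2 x b c j k → H.Bad J (T n) → H.LP j k →
  ∃ (J' : Finset A) (w' e1' e2' y' : ℕ → A) (T' D1' D2' : ℕ → B) (x' : A) (b' c' : B) (j' k' : A),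
    H.WS J' (n + 1) w' e1' e2' y' T' D1' D2' x' b' c' j' k' ∧ H.Bad J' (T' (n + 1))

/-- JWS: step, short case -/
def ST_WSS : Prop := ∀ (A B : Type) [Fintype A] [Fintype B] (H : Cub A B) (J : Finset A) (n : ℕ)
  (w e1 e2 y : ℕ → A) (T D1 D2 : ℕ → B) (x : A) (b c : B) (j k : A),
  H.WS J n w e1 e2 y T D1 D2 x b c j k → H.Bad J (T n) → ¬ H.LP j k →
  ∃ (J' : Finset A) (w' e1' e2' y' : ℕ → A) (T' D1' D2' : ℕ → B) (x' : A) (b' c' : B) (j' k' : A),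
    H.WS J' (n + 1) w' e1' e2' y' T' D1' D2' x' b' c' j' k' ∧ H.Bad J' (T' (n + 1))

/-- JW: the walk gives no bad tokens -/
def ST_Walk : Prop := ∀ (A B : Type) [Fintype A] [Fintype B] (H : Cub A B) (J : Finset A),
  H.FOpt J → H.nB J = 0

/-- JP2 -/
def ST_P2 : Prop := ∀ (A B : Type) [Fintype A] [Fintype B] (H : Cub A B) (J : Finset A)
  (T : B) (x y z o : A), H.GOpt J → H.DD J T x y z o → ¬ H.Hv J x

/-- Jh3 -/
def ST_h3 : Prop := ∀ (A B : Type) [Fintype A] [Fintype B] (H : Cub A B) (J : Finset A)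
  (T g be ga : B) (y z y' z' : A), H.Opt J → H.U J T → y ∈ H.pt T → z ∈ H.pt T → y ≠ z →
  g ≠ T → y ∈ H.pt g → z ∈ H.pt g → y' ∉ J → z' ∉ J → y' ∉ H.pt T → z' ∉ H.pt T →
  y ∈ H.pt be → y' ∈ H.pt be → z ∈ H.pt ga → z' ∈ H.pt ga → ¬ H.Hv J y'

/-- JN -/
def ST_N : Prop := ∀ (A B : Type) [Fintype A] [Fintype B] (H : Cub A B) (J : Finset A)
  (T : B) (x y z o : A), H.GOpt J → H.K4d J T x y z o → ¬ H.Lg J y

/-- JC: the rest is in the class -/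
def ST_C : Prop := ∀ (A B : Type) [Fintype A] [Fintype B] (H : Cub A B) (J : Finset A),
  H.GOpt J → (H.rs J (H.DS J)).Cls

/-- Jg: the 2-colouring of the incidences of J and of the dropped incidences -/
def ST_g : Prop := ∀ (A B : Type) [Fintype A] [Fintype B] (H : Cub A B) (J D : Finset A),
  H.Opt J → (∀ v ∈ D, v ∉ J → ∃ T b c j k, XD H J v T b c j k ∧ ¬ H.LP j k) →
  ∃ g : A → B → Bool,
      ∀ u v b b', u ≠ v → b ≠ b' → u ∈ H.pt b → v ∈ H.pt b → v ∈ H.pt b' →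
        (u ∈ J ∨ (u ∉ J ∧ (H.rs J D).drp u b)) → (v ∈ J ∨ (v ∉ J ∧ (H.rs J D).drp v b')) →
        g u b ≠ g v b'

/-- existence of the final J -/
def ST_GEx : Prop := ∀ (A B : Type) [Fintype A] [Fintype B] (H : Cub A B), ∃ J, H.GOpt J

end Pool.Agent.Helper65.Inj
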