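import Mathlib
import Pool.Agent.Helper65.Inj.JDefs

namespace Pool.Agent.Helper65.Inj

open Classical

set_option linter.unusedSectionVars false
set_option linter.unusedVariables false

open Cub

variable {A B : Type} [Fintype A] [Fintype B] {H : Cub A B}

/-- a hit block with two points outside J meets J in exactly one point -/
theorem P_of_two {J : Finset A} {b : B} {u v : A} (hu : u ∈ H.pt b) (hv : v ∈ H.pt b)
    (huv : u ≠ v) (huJ : u ∉ J) (hvJ : v ∉ J) (hU : ¬ H.U J b) : ∃ a, H.P J b a := by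
  obtain ⟨w, h1, h2, h3, h4⟩ := ex_pt2 hu hv huv
  refine ⟨w, h3, ?_, ?_⟩
  · by_contra hw
    apply hU
    intro r hr hrJ
    rcases h4 r hr with rfl | rfl | rfl
    · exact huJ hrJ
    · exact hvJ hrJ
    · exact hw hrJ
  · intro r hr hrJ
    rcases h4 r hr with rfl | rfl | rfl
    · exact absurd hrJ huJ
    · exact absurd hrJ hvJ
    · rfl

theorem short_of_DS {J : Finset A} (hP : ST_N) (hG : H.GOpt J) :
    ∀ v ∈ H.DS J, v ∉ J → ∃ T b c j k, XD H J v T b c j k ∧ ¬ H.LP j k := by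
  intro v hv hvJ
  simp only [DS, Finset.mem_filter, Finset.mem_univ, true_and] at hv
  obtain ⟨_, T, hUT, hvT, h | ⟨x, z, o, hK⟩⟩ := hv
  · obtain ⟨hHv, v', hne, hv'T, hHv'⟩ := h
    obtain ⟨⟨T', b, c, j, k, hX⟩, _⟩ := id hHv
    refine ⟨T', b, c, j, k, hX, fun hLP => ?_⟩
    have hbad : H.Bad J T := ⟨hUT, v, v', hvT, hv'T, hne.symm, hHv, hHv', ⟨T', b, c, j, k, hX, hLP⟩⟩
    have h0 := hG.2.1
    unfold nB at h0
    rw [Finset.card_eq_zero] at h0
    have : T ∈ Finset.univ.filter (fun b => H.Bad J b) := by simp [hbad]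
    rw [h0] at this
    simp at this
  · obtain ⟨⟨_, hx, hy, hz, hxy, hxz, hyz, hoJ, hoT, ⟨g, hgT, hyg, hzg⟩, ⟨be, hybe, hobe⟩, _⟩, _⟩ := id hK
    have hzJ : z ∉ J := hUT z hz
    have hbeT : be ≠ T := by rintro rfl; exact hoT hobe
    have hyo : v ≠ o := by rintro rfl; exact hoT hy
    have hzo : z ≠ o := by rintro rfl; exact hoT hz
    have hgU : ¬ H.U J g := fun h => hgT (F1 hG.1 hyg hy h hUT)
    have hbU : ¬ H.U J be := fun h => hbeT (F1 hG.1 hybe hy h hUT)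
    have hgbe : g ≠ be := by
      rintro rfl
      apply hgU
      intro r hr hrJ
      rcases pt_cases hyg hzg hobe hyz hyo hzo hr with rfl | rfl | rfl
      · exact hvJ hrJ
      · exact hzJ hrJ
      · exact hoJ hrJ
    obtain ⟨a, ha⟩ := P_of_two hyg hzg hyz hvJ hzJ hgU
    obtain ⟨b, hb⟩ := P_of_two hybe hobe hyo hvJ hoJ hbU
    have hX : XD H J v T g be a b := ⟨hy, hyg, hybe, hgbe, hUT, ha, hb⟩
    exact ⟨T, g, be, a, b, hX, fun hLP => hP A B H J T x v z o hG hK ⟨T, g, be, a, b, hX, hLP⟩⟩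

theorem st_J (hN : ST_N) (hC : ST_C) (hg : ST_g) (hE : ST_GEx) : ST_J := by
  intro A B _ _ H
  obtain ⟨J, hJ⟩ := hE A B H
  exact ⟨J, H.DS J, hC A B H J hJ, hg A B H J (H.DS J) hJ.1 (short_of_DS hN hJ)⟩

end Pool.Agent.Helper65.Inj
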