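import Mathlib
import Pool.Agent.Helper65.Inj.JJ
import Pool.Agent.Helper7.Inj.F
import Pool.Agent.Helper35.Inj.Brooks
import Pool.Agent.Helper35.Inj.JE
import Pool.Agent.Helper51.Inj.R2
import Pool.Agent.Helper51.Inj.JWR
import Pool.Agent.Helper63.Inj.JC
import Pool.Agent.Helper63.Inj.Jg
import Pool.Agent.Helper64.Inj.JN
import Pool.Agent.Helper64.Inj.JP
import Pool.Agent.Helper69.Inj.JM
import Pool.Agent.Helper69.Inj.R5
import Pool.Agent.Helper71.Inj.R3
import Pool.Agent.Helper71.Inj.JWa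
import Pool.Agent.Helper78.Inj.R1
import Pool.Agent.Helper78.Inj.WSS
import Pool.Agent.Helper83.Inj.JFr
import Pool.Agent.Helper83.Inj.JR
import Pool.Agent.Helper88.Inj.JU
import Pool.Agent.Helper91.Inj.G2e
import Pool.Agent.Helper91.Inj.R4
import Pool.Agent.Helper91.Inj.JW
import Pool.Agent.Helper91.Inj.JWb
import Pool.Agent.Helper22.Inj.WSL

namespace Pool.Agent.Helper65.Inj

open Pool.Agent

theorem all_R (hVL : ST_VL) : ST_R :=
  Helper69.InjR.r5 hVL Helper78.Inj.r1 Helper51.Inj.r2 Helper71.Inj.r3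
    (Helper91.Inj.r4 Helper78.Inj.r1)

theorem all_J : ST_J := by
  have hU1 : ST_U1 := Helper88.Inj.st_U1
  have hEnd : ST_End := Helper35.Inj.st_End
  have hE3 : ST_E3 := Helper35.Inj.st_E3
  have hOR : ST_OR := Helper35.Inj.st_OR
  have hM : ST_M := Helper69.Inj.st_M hEnd hU1
  have hB : ST_B := Helper69.Inj.st_B hM
  have hFr : ST_Fr := Helper83.Inj.st_Fr hOR
  have hN : ST_N := Helper64.Inj.st_N hM hEnd Helper83.Inj.st_Rot1 Helper83.Inj.st_Rot2
  have hP2 : ST_P2 := Helper64.Inj.st_P2 hM hEnd Helper83.Inj.st_Rot1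
  have hh3 : ST_h3 := Helper64.Inj.st_h3 hEnd Helper88.Inj.st_U1s
  have hC : ST_C := Helper63.Inj.st_C hP2 hh3
  have hWR : ST_WR := Helper51.Inj.st_WR hU1 hE3 hOR Helper71.Inj.st_W1 Helper71.Inj.st_W2
    Helper91.Inj.st_W3 Helper71.Inj.st_W4 Helper71.Inj.st_W5
  have hWSL : ST_WSL := Helper22.Inj.st_WSL hWR Helper83.Inj.st_Rot2 hB hFr hOR
  have hWSS : ST_WSS := Helper78.Inj.st_WSS hWR Helper83.Inj.st_Rot1 hB hFr hE3 hOR
    Helper91.Inj.st_W6 Helper91.Inj.st_W7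
  have hE : ST_GEx := Helper91.Inj.st_GEx (Helper91.Inj.st_Walk hOR hWSL hWSS)
  exact st_J hN hC Helper63.Inj.st_g hE

/-- every cubic incidence structure has the colouring -/
theorem main : ST_Main :=
  Helper7.Inj.main_of (all_R (Helper91.Inj.st_VL Helper35.Inj.brooks)) all_J

end Pool.Agent.Helper65.Inj
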